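import Pool.Agent.U737.MN.Fam
import Pool.Agent.TH444.ML.Done
import Pool.Agent.U358.MN.NotFull
import Pool.Agent.U178.MN.SqBad
import Pool.Agent.U404.MN.Sieve
import Pool.Agent.U980.MN.SplDown
import Pool.Agent.U630.MN.BadSmall
import Pool.Agent.U810.MN.WrIff
import Pool.Agent.U261.MN.MidUnique
import Pool.Agent.U894.MN.Exist
import Pool.Agent.U875.MN.FewGal
import Pool.Agent.U55.MN.DiffDvd
import Pool.Agent.U608.MN.DiscSup
import Pool.Agent.U891.MN.FewGal2

/-!
# All inputs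
-/

set_option autoImplicit false

namespace Pool.Agent.U737.MN

theorem inp : Inp where
  quadLim := Pool.Agent.TH444.ML.quadLim Pool.Agent.TH444.ML.rest
  quadPos := Pool.Agent.TH444.ML.quadPos
  quadUnif := Pool.Agent.TH444.ML.quadUnif
  badSmall := Pool.Agent.U630.MN.t_BadSmall Pool.Agent.TH263.J3086.discQuad
    Pool.Agent.TH914.J3087.kumP Pool.Agent.U358.MN.t_NotFull
    (Pool.Agent.U178.MN.t_SqBad Pool.Agent.U980.MN.t_SplDown)
    (Pool.Agent.U404.MN.t_Sieve Pool.Agent.TH857.J3095.splitSum Pool.Agent.U980.MN.t_SplDown)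
  wrIff := Pool.Agent.U810.MN.t_WrIff
  midUnique := Pool.Agent.U261.MN.t_MidUnique Pool.Agent.U810.MN.t_WrIff
  exist := Pool.Agent.U894.MN.t_Exist
  fewGal := Pool.Agent.U875.MN.t_FewGal Pool.Agent.TH979.J3100.hermiteRel
  fewGal2 := Pool.Agent.U891.MN.t_FewGal2 Pool.Agent.TH979.J3100.hermiteRel
    (Pool.Agent.U608.MN.t_DiscSup Pool.Agent.U55.MN.t_DiffDvd)

end Pool.Agent.U737.MN
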