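import Pool.Agent.U737.MN.Fin
import Pool.Agent.TH444.ML.Perm

/-!
# Elements of minimal index
-/

set_option autoImplicit false

namespace Pool.Agent.U737.MN

open Pool.Agent.TH444.ML (ind one_le_ind ind_swap)

theorem least_ind {H P : Type} [Group H] [MulAction H P] [Nonempty P] {n : ℕ}
    {G : Subgroup (Equiv.Perm (Fin n))} (hG : IsC2Wr H P G) :
    IsLeast {k : ℕ | ∃ g ∈ G, g ≠ 1 ∧ k = ind g} 1 := by
  constructor
  · obtain ⟨f, hf⟩ := hG
    obtain ⟨x⟩ := ‹Nonempty P›
    have hab : f.symm (x, false) ≠ f.symm (x, true) := by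
      intro h
      have := f.symm.injective h
      simp at this
    refine ⟨Equiv.swap (f.symm (x, false)) (f.symm (x, true)), ?_, ?_, (ind_swap hab).symm⟩
    · rw [hf]
      refine ⟨1, fun i => ?_⟩
      rw [one_smul]
      by_cases h1 : i = f.symm (x, false)
      · subst h1; rw [Equiv.swap_apply_left]; simp
      · by_cases h2 : i = f.symm (x, true)
        · subst h2; rw [Equiv.swap_apply_right]; simp
        · rw [Equiv.swap_apply_of_ne_of_ne h1 h2]
    · intro h
      exact hab (Equiv.swap_eq_one_iff.1 h)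
  · rintro k ⟨g, -, h2, rfl⟩
    exact one_le_ind g h2

end Pool.Agent.U737.MN
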