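import Pool.Agent.U737.MN.DoneL

/-!
# The lower bound for all iterated wreath products `C_ℓ ≀ ... ≀ H`
-/

set_option autoImplicit false
set_option linter.unusedSectionVars false

open NumberField Filter Topology

namespace Pool.Agent.U737.MN

open Pool.Agent.TH444.ML (dsc nrm nf_of_fd dsc_eq one_le_dsc HasGp Cnt)

theorem finite_TL {K Ω : Type} [Field K] [NumberField K] [Field Ω] [Algebra K Ω]
    [IsAlgClosure K Ω] {H P : Type} [Group H] [MulAction H P] [Finite P] [Nonempty P] {ℓ : ℕ}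
    (hl : 0 < ℓ) (Z : ℝ) : (TL K Ω ℓ H P Z).Finite := by
  obtain ⟨C, hC⟩ := Pool.Agent.TH979.J3100.hermiteRel K Ω (ℓ * Nat.card P)
  refine (hC (max 1 Z) (le_max_left _ _)).1.subset ?_
  rintro L ⟨h1, -, h3⟩
  have hpos : 0 < Nat.card P := Nat.card_pos
  exact ⟨FiniteDimensional.of_finrank_pos (by rw [h1]; positivity), h1, h3.trans (le_max_right _ _)⟩

/-- the lower bound for `C_ℓ ≀ H` -/
theorem lowL (K : Type) [Field K] [NumberField K] (H P : Type) [Group H]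
    [Finite H] [MulAction H P] [Finite P] [Nonempty P] [MulAction.IsPretransitive H P]
    [FaithfulSMul H P] (hGal : (Gal K (AlgebraicClosure K) H P).Nonempty) (ℓ : ℕ) (hl : ℓ.Prime)
    (hz : HasZ ℓ K) {n : ℕ} (G : Subgroup (Equiv.Perm (Fin n))) (hG : IsCLWr ℓ H P G) :
    (∃ c : ℝ, 0 < c ∧ ∃ X₀ : ℝ, ∀ X : ℝ, X₀ ≤ X →
      c * X ^ (1 / ((ℓ : ℝ) - 1)) ≤ (Set.ncard (Cnt K G X) : ℝ)) ∧
    (∀ X : ℝ, (Cnt K G X).Finite) ∧ (Gal K (AlgebraicClosure K) G (Fin n)).Nonempty := by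
  set d : ℝ := ((|discr K| : ℤ) : ℝ) ^ n with hd
  have hd0 : 0 < d := by
    have : (0 : ℤ) < |discr K| := abs_pos.2 (discr_ne_zero K)
    have : (0 : ℝ) < ((|discr K| : ℤ) : ℝ) := by exact_mod_cast this
    positivity
  have hl2 : (2 : ℝ) ≤ ℓ := by exact_mod_cast hl.two_le
  have hl1 : (0 : ℝ) < (ℓ : ℝ) - 1 := by linarith
  have hn := clwr_n hG
  have hpos : 0 < n := by
    rw [hn]
    exact Nat.mul_pos hl.pos Nat.card_pos
  have key : ∃ c : ℝ, 0 < c ∧ ∃ X₀ : ℝ, ∀ X : ℝ, X₀ ≤ X →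
      c * X ^ (1 / ((ℓ : ℝ) - 1)) ≤ (Set.ncard (Cnt K G X) : ℝ) := by
    obtain ⟨c, hc0, Z₀, hc⟩ := lowerL inpL (K := K) (Ω := AlgebraicClosure K) (H := H) (P := P)
      hl hz hGal
    refine ⟨c * d ^ (1 / ((ℓ : ℝ) - 1)), by positivity, max 1 (Z₀ / d), fun X hX => ?_⟩
    have hX1 : 1 ≤ X := (le_max_left _ _).trans hX
    have hX0 : 0 < X := by linarith
    have hX2 : Z₀ ≤ X * d := by
      have := (le_max_right 1 (Z₀ / d)).trans hX
      rwa [div_le_iff₀ hd0] at this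
    rw [cnt_eqL K hl.pos hG]
    have h1 := hc (X * d) hX2 (finite_TL hl.pos _)
    rw [Real.mul_rpow hX0.le hd0.le] at h1
    calc c * d ^ (1 / ((ℓ : ℝ) - 1)) * X ^ (1 / ((ℓ : ℝ) - 1))
        = c * (X ^ (1 / ((ℓ : ℝ) - 1)) * d ^ (1 / ((ℓ : ℝ) - 1))) := by ring
      _ ≤ _ := h1
  refine ⟨key, fun X => ?_, ?_⟩
  · rw [cnt_eqL K hl.pos hG]
    exact finite_TL hl.pos _
  · obtain ⟨c, hc0, X₀, hc⟩ := key
    have h1 := hc (max 1 X₀) (le_max_right _ _)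
    have h2 : 0 < c * (max 1 X₀) ^ (1 / ((ℓ : ℝ) - 1)) := by
      have : (0 : ℝ) < max 1 X₀ := lt_of_lt_of_le one_pos (le_max_left _ _)
      positivity
    have h3 : 0 < Set.ncard (Cnt K G (max 1 X₀)) := by
      have := h2.trans_le h1
      exact_mod_cast this
    obtain ⟨L, hLC⟩ := Set.nonempty_of_ncard_ne_zero h3.ne'
    refine ⟨L, (gal_fin K G L).2 ⟨?_, hLC.2.1⟩⟩
    exact FiniteDimensional.of_finrank_pos (by rw [hLC.1]; exact hpos)

/-- all extensions are realized -/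
theorem tower_gal (K : Type) [Field K] [NumberField K] (H P : Type) [Group H]
    [Finite H] [MulAction H P] [Finite P] [Nonempty P] [MulAction.IsPretransitive H P]
    [FaithfulSMul H P] (hGal : (Gal K (AlgebraicClosure K) H P).Nonempty) (ls : List ℕ) (n : ℕ)
    (G : Subgroup (Equiv.Perm (Fin n))) (hG : Tower H P ls n G) :
    (∀ ℓ ∈ ls, ℓ.Prime ∧ HasZ ℓ K) →
      (Gal K (AlgebraicClosure K) G (Fin n)).Nonempty ∧ MulAction.IsPretransitive G (Fin n) ∧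
        0 < n := by
  induction hG with
  | one ℓ n G hG =>
    intro h1
    obtain ⟨h3, h4⟩ := h1 ℓ (by simp)
    refine ⟨(lowL K H P hGal ℓ h3 h4 G hG).2.2, trans_of hG, ?_⟩
    rw [clwr_n hG]
    exact Nat.mul_pos h3.pos Nat.card_pos
  | step ℓ ls m n G G' hT hG' ih =>
    intro h1
    obtain ⟨g1, g2, g3⟩ := ih (fun l hl => h1 l (by simp [hl]))
    obtain ⟨h3, h4⟩ := h1 ℓ (by simp)
    have hne : Nonempty (Fin m) := ⟨⟨0, g3⟩⟩
    refine ⟨(lowL K G (Fin m) g1 ℓ h3 h4 G' hG').2.2, trans_of hG', ?_⟩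
    rw [clwr_n hG']
    exact Nat.mul_pos h3.pos Nat.card_pos

/-- the lower bound for towers -/
theorem tower_low (K : Type) [Field K] [NumberField K] (H P : Type) [Group H]
    [Finite H] [MulAction H P] [Finite P] [Nonempty P] [MulAction.IsPretransitive H P]
    [FaithfulSMul H P] (hGal : (Gal K (AlgebraicClosure K) H P).Nonempty) (ℓ : ℕ) (ls : List ℕ)
    (n : ℕ) (G : Subgroup (Equiv.Perm (Fin n))) (hG : Tower H P (ℓ :: ls) n G)
    (h1 : ∀ l ∈ ℓ :: ls, l.Prime ∧ HasZ l K) :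
    (IsLeast {j : ℕ | ∃ g ∈ G, g ≠ 1 ∧ j = g.cycleType.sum - Multiset.card g.cycleType} (ℓ - 1)) ∧
    ∃ c : ℝ, 0 < c ∧ ∃ X₀ : ℝ, ∀ X : ℝ, X₀ ≤ X →
      c * X ^ (1 / ((ℓ : ℝ) - 1)) ≤ (Set.ncard (Cnt K G X) : ℝ) := by
  obtain ⟨h3, h4⟩ := h1 ℓ (by simp)
  cases hG with
  | one _ _ _ hG =>
    have hfs : IsCLWr ℓ H P G := hG
    obtain ⟨f, hf⟩ := hfs
    exact ⟨Pool.Agent.U765.MN.t_IndL ℓ n H P G f h3 hf, (lowL K H P hGal ℓ h3 h4 G hG).1⟩
  | step _ _ m _ G₀ _ hT hG' =>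
    obtain ⟨g1, g2, g3⟩ := tower_gal K H P hGal ls m G₀ hT (fun l hl => h1 l (by simp [hl]))
    have hne : Nonempty (Fin m) := ⟨⟨0, g3⟩⟩
    have hfs : IsCLWr ℓ G₀ (Fin m) G := hG'
    obtain ⟨f, hf⟩ := hfs
    exact ⟨Pool.Agent.U765.MN.t_IndL ℓ n G₀ (Fin m) G f h3 hf,
      (lowL K G₀ (Fin m) g1 ℓ h3 h4 G hG').1⟩

/-- iterated wreath products exist -/
theorem tower_exists (H P : Type) [Group H] [MulAction H P] [Finite P] [Nonempty P]
    [MulAction.IsPretransitive H P] (ℓ : ℕ) (ls : List ℕ) (h0 : ∀ l ∈ ℓ :: ls, 0 < l) :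
    ∃ (n : ℕ) (G : Subgroup (Equiv.Perm (Fin n))), n = (ℓ :: ls).prod * Nat.card P ∧
      Tower H P (ℓ :: ls) n G ∧ MulAction.IsPretransitive G (Fin n) := by
  have key : ∀ (l : ℕ), 0 < l → ∀ (H P : Type) [Group H] [MulAction H P] [Finite P]
      [MulAction.IsPretransitive H P], ∃ G : Subgroup (Equiv.Perm (Fin (l * Nat.card P))),
      IsCLWr l H P G := by
    intro l hl H P _ _ _ _
    have : NeZero l := ⟨hl.ne'⟩
    have hcard : Nat.card (P × ZMod l) = l * Nat.card P := by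
      rw [Nat.card_prod, mul_comm]
      simp
    let f : Fin (l * Nat.card P) ≃ P × ZMod l := (Finite.equivFinOfCardEq hcard).symm
    let G : Subgroup (Equiv.Perm (Fin (l * Nat.card P))) :=
      { carrier := {π | ∃ (h : H) (c : P → ZMod l), ∀ i,
          f (π i) = (h • (f i).1, c (f i).1 + (f i).2)}
        one_mem' := ⟨1, 0, fun i => by simp⟩
        mul_mem' := by
          rintro π ρ ⟨h, c, hh⟩ ⟨h', c', hh'⟩
          refine ⟨h * h', fun x => c (h' • x) + c' x, fun i => ?_⟩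
          rw [Equiv.Perm.mul_apply, hh, hh', mul_smul]
          simp [add_assoc]
        inv_mem' := by
          rintro π ⟨h, c, hh⟩
          refine ⟨h⁻¹, fun x => - c (h⁻¹ • x), fun i => ?_⟩
          have h1 := hh (π⁻¹ i)
          rw [show π (π⁻¹ i) = i from π.apply_symm_apply i] at h1
          rw [h1]
          simp }
    exact ⟨G, f, fun π => Iff.rfl⟩
  induction ls generalizing ℓ with
  | nil =>
    obtain ⟨G, hG⟩ := key ℓ (h0 ℓ (by simp)) H P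
    exact ⟨_, G, by simp, Tower.one ℓ _ G hG, trans_of hG⟩
  | cons ℓ' ls ih =>
    obtain ⟨m, G₀, hm, hT, htr⟩ := ih ℓ' (fun l hl => h0 l (by simp at hl ⊢; tauto))
    obtain ⟨G, hG⟩ := key ℓ (h0 ℓ (by simp)) G₀ (Fin m)
    refine ⟨_, G, ?_, Tower.step ℓ _ m _ G₀ G hT hG, trans_of hG⟩
    rw [Nat.card_fin, hm]
    simp [mul_assoc]

end Pool.Agent.U737.MN
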