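import Pool.Agent.U737.MN.Fam

/-!
# The action of `A × S_m` on `A × {1, ..., m}`
-/

set_option autoImplicit false

namespace Pool.Agent.U737.MN

variable (A : Type) [Group A] (m : ℕ)

/-- The action of `A × S_m` on `A × {1, ..., m}`. -/
def prodAct : MulAction (A × Equiv.Perm (Fin m)) (A × Fin m) where
  smul w x := (w.1 * x.1, w.2 x.2)
  one_smul x := by
    change ((1 : A) * x.1, (1 : Equiv.Perm (Fin m)) x.2) = x
    simp
  mul_smul v w x := by
    change (v.1 * w.1 * x.1, (v.2 * w.2) x.2) = (v.1 * (w.1 * x.1), v.2 (w.2 x.2))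
    rw [mul_assoc]
    rfl

theorem prod_trans :
    letI := prodAct A m
    ∀ x y : A × Fin m, ∃ w : A × Equiv.Perm (Fin m), w • x = y := by
  classical
  let _ := prodAct A m
  have hdef : ∀ (w : A × Equiv.Perm (Fin m)) (x : A × Fin m),
      w • x = (w.1 * x.1, w.2 x.2) := fun _ _ => rfl
  rintro ⟨a, i⟩ ⟨b, j⟩
  refine ⟨⟨b * a⁻¹, Equiv.swap i j⟩, ?_⟩
  rw [hdef]
  simp

theorem prod_faithful (hm : 0 < m) :
    letI := prodAct A m
    ∀ w : A × Equiv.Perm (Fin m), (∀ x : A × Fin m, w • x = x) → w = 1 := by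
  let _ := prodAct A m
  have hdef : ∀ (w : A × Equiv.Perm (Fin m)) (x : A × Fin m),
      w • x = (w.1 * x.1, w.2 x.2) := fun _ _ => rfl
  intro x hfix
  refine Prod.ext ?_ ?_
  · have := congrArg Prod.fst (hfix (1, ⟨0, hm⟩))
    rw [hdef] at this
    simpa using this
  · ext i
    have := congrArg (fun z : A × Fin m => (z.2 : ℕ)) (hfix (1, i))
    simpa [hdef] using this

end Pool.Agent.U737.MN
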