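import Pool.Agent.U737.MN.LowAll
import Pool.Agent.U880.MB.Real

/-!
# The asymptotic formula for `C₂ ≀ (C_ℓ ≀ ... ≀ H)`
-/

set_option autoImplicit false
set_option linter.unusedSectionVars false

open NumberField Filter Topology

namespace Pool.Agent.U737.MN

open Pool.Agent.TH444.ML (dsc nrm nf_of_fd dsc_eq one_le_dsc HasGp Cnt)

/-- asymptotic formula up to isomorphism from summability -/
theorem asymp_iso_sum (r : Inp) (K : Type) [Field K] [NumberField K] (H P : Type) [Group H]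
    [Finite H] [MulAction H P] [Finite P] [Nonempty P] [MulAction.IsPretransitive H P]
    [FaithfulSMul H P]
    (hs : Summable (fun M : Gal K (AlgebraicClosure K) H P => (dsc M.1) ^ (-(1 / 4) : ℝ)))
    (hne : (Gal K (AlgebraicClosure K) H P).Nonempty) {n : ℕ}
    (G : Subgroup (Equiv.Perm (Fin n))) (hG : IsC2Wr H P G) :
    ∃ c : ℝ, 0 < c ∧ Tendsto (fun X : ℝ =>
      (Nat.card (Quot (fun L L' : Cnt K G X => Nonempty (L.1 ≃ₐ[K] L'.1))) : ℝ) / X)
        atTop (𝓝 c) := by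
  have hd : 0 < ((|discr K| : ℤ) : ℝ) ^ n := by
    have : (0 : ℤ) < |discr K| := abs_pos.2 (discr_ne_zero K)
    have : (0 : ℝ) < ((|discr K| : ℤ) : ℝ) := by exact_mod_cast this
    positivity
  have h0 := main_asymp (K := K) (Ω := AlgebraicClosure K) (H := H) (P := P) r.quadLim r.quadPos
    r.quadUnif r.badSmall r.wrIff r.midUnique hs hne _ hd
  have h1 : (∀ X : ℝ, 0 < X → (Cnt K G X).Finite) ∧ ∃ c : ℝ, 0 < c ∧
      Tendsto (fun X : ℝ => (Set.ncard (Cnt K G X) : ℝ) / X) atTop (𝓝 c) := by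
    simp only [cnt_eq K hG]
    exact h0
  obtain ⟨hfin, c, hc0, hlim⟩ := h1
  have hpos : (0 : ℝ) < Nat.card P := by exact_mod_cast Nat.card_pos
  refine ⟨c / Nat.card P, by positivity, ?_⟩
  have h := hlim.div_const (Nat.card P : ℝ)
  refine h.congr' ?_
  filter_upwards [eventually_gt_atTop (0 : ℝ)] with X hX
  have hX' := hfin X hX
  rw [cnt_eq K hG] at hX' ⊢
  have hq := quot_TT (K := K) (Ω := AlgebraicClosure K) (H := H) (P := P) t_WrConj _ hX'
  rw [← hq]
  push_cast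
  field_simp

/-- summability over the fields with group an iterated wreath product -/
theorem tower_sum (K : Type) [Field K] [NumberField K] (H P : Type) [Group H]
    [Finite H] [MulAction H P] [Finite P] [Nonempty P] [MulAction.IsPretransitive H P]
    [FaithfulSMul H P] (hL : Good K H P) (ℓ : ℕ) (ls : List ℕ) (n : ℕ)
    (G : Subgroup (Equiv.Perm (Fin n))) (hG : Tower H P (ℓ :: ls) n G)
    (h1 : ∀ l ∈ ℓ :: ls, l.Prime ∧ HasZ l K) (h2 : ∀ l ∈ ls, 3 ≤ l) (h7 : 7 ≤ ℓ) :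
    Summable (fun M : Gal K (AlgebraicClosure K) G (Fin n) => (dsc M.1) ^ (-(1 / 4) : ℝ)) ∧
      (Gal K (AlgebraicClosure K) G (Fin n)).Nonempty ∧
      MulAction.IsPretransitive G (Fin n) ∧ 0 < n := by
  obtain ⟨h3, h4⟩ := h1 ℓ (by simp)
  obtain ⟨g1, g2, g3⟩ := tower_gal K H P hL.2 (ℓ :: ls) n G hG h1
  refine ⟨?_, g1, g2, g3⟩
  obtain ⟨-, -, hup⟩ := tower_weak K H P hL ℓ ls n G hG h1 h2
  have hl7 : (7 : ℝ) ≤ ℓ := by exact_mod_cast h7
  have hl1 : (0 : ℝ) < (ℓ : ℝ) - 1 := by linarith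
  set d : ℝ := ((|discr K| : ℤ) : ℝ) ^ n with hd
  have hd0 : 0 < d := by
    have : (0 : ℤ) < |discr K| := abs_pos.2 (discr_ne_zero K)
    have : (0 : ℝ) < ((|discr K| : ℤ) : ℝ) := by exact_mod_cast this
    positivity
  have hmem : ∀ L ∈ Gal K (AlgebraicClosure K) G (Fin n), ∀ Z : ℝ, dsc L ≤ Z →
      L ∈ Cnt K G (Z / d) := by
    intro L hLG Z hZ
    have hfd : FiniteDimensional K L := hLG.1
    have hnf : NumberField L := nf_of_fd L
    have hdeg : Module.finrank K L = n := by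
      obtain ⟨-, e, -⟩ := hLG
      rw [← AlgHom.card K L (AlgebraicClosure K), ← Nat.card_eq_fintype_card, Nat.card_congr e,
        Nat.card_fin]
    refine ⟨hdeg, ((gal_fin K G L).1 hLG).2, hnf, ?_⟩
    rw [dsc_eq L] at hZ
    rwa [← hd, div_mul_cancel₀ _ hd0.ne']
  obtain ⟨c, hc0, hc⟩ := hup (1 / 24) (by norm_num)
  have hb0 : 0 < 1 / ((ℓ : ℝ) - 1) + 1 / 24 := by positivity
  have hbs : 1 / ((ℓ : ℝ) - 1) + 1 / 24 < (1 / 4 : ℝ) := by
    have e2 : 1 / ((ℓ : ℝ) - 1) ≤ 1 / 6 := by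
      apply one_div_le_one_div_of_le (by norm_num)
      linarith
    linarith
  refine summable_of_count (fun M : Gal K (AlgebraicClosure K) G (Fin n) => dsc M.1)
    (fun M => one_le_dsc M.1) (c * (d ^ (1 / ((ℓ : ℝ) - 1) + 1 / 24))⁻¹) _ _ ?_ hb0.le hbs ?_
  · positivity
  · intro Z hZ
    obtain ⟨h1, h2⟩ := hc (Z / d) (by positivity)
    have h3 : Set.InjOn (Subtype.val : Gal K (AlgebraicClosure K) G (Fin n) →
        IntermediateField K (AlgebraicClosure K)) {M | dsc M.1 ≤ Z} :=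
      Subtype.val_injective.injOn
    have h4 : Set.MapsTo (Subtype.val : Gal K (AlgebraicClosure K) G (Fin n) →
        IntermediateField K (AlgebraicClosure K)) {M | dsc M.1 ≤ Z} (Cnt K G (Z / d)) :=
      fun M hM => hmem M.1 M.2 Z hM
    refine ⟨Set.Finite.of_injOn h4 h3 h1, ?_⟩
    have h5 := Set.ncard_le_ncard_of_injOn _ h4 h3 h1
    rw [Real.div_rpow hZ.le hd0.le] at h2
    calc (Set.ncard {M : Gal K (AlgebraicClosure K) G (Fin n) | dsc M.1 ≤ Z} : ℝ)
        ≤ (Set.ncard (Cnt K G (Z / d)) : ℝ) := by exact_mod_cast h5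
      _ ≤ c * (Z ^ (1 / ((ℓ : ℝ) - 1) + 1 / 24) / d ^ (1 / ((ℓ : ℝ) - 1) + 1 / 24)) := h2.le
      _ = _ := by ring

/-- a large base field: `H` is a Galois group over all fields above it, and it contains roots of
unity -/
theorem exists_base_roots (H : Type) [Group H] [Finite H] (N : ℕ) (hN : 0 < N) :
    ∃ (K₀ : Type) (_ : Field K₀) (_ : NumberField K₀), ∀ (K : Type) [Field K] [NumberField K]
      [Algebra K₀ K], (Pool.Agent.TH444.ML.Gal K (AlgebraicClosure K) H).Nonempty ∧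
        ∀ l : ℕ, l ∣ N → HasZ l K := by
  obtain ⟨K₀, i4, i5, hK₀⟩ := Pool.Agent.U880.MB.exists_base H
  have : NeZero N := ⟨hN.ne'⟩
  refine ⟨CyclotomicField N K₀, inferInstance, inferInstance, fun K _ _ i => ?_⟩
  letI : Algebra K₀ K := ((algebraMap (CyclotomicField N K₀) K).comp
    (algebraMap K₀ (CyclotomicField N K₀))).toAlgebra
  refine ⟨hK₀ K, fun l hl => ?_⟩
  obtain ⟨m, hm⟩ := hl
  have h1 : IsPrimitiveRoot (IsCyclotomicExtension.zeta N K₀ (CyclotomicField N K₀)) N :=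
    IsCyclotomicExtension.zeta_spec N K₀ (CyclotomicField N K₀)
  have h2 := h1.map_of_injective (algebraMap (CyclotomicField N K₀) K).injective
  exact ⟨_, h2.pow hN (by rw [hm, mul_comm])⟩

end Pool.Agent.U737.MN
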