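import Pool.Agent.U737.MN.All
import Pool.Agent.TH444.ML.WrG
import Pool.Agent.N600.UK.Sym

/-!
# Families: `S_m` and `A ≀ S_m` occur over all number fields
-/

set_option autoImplicit false
set_option linter.unusedSectionVars false

open NumberField Filter Topology

namespace Pool.Agent.U737.MN

open Pool.Agent.TH444.TW (Cls RegularOver)
open Pool.Agent.H391R2 (Wr)
open Pool.Agent.TH444.ML (gal_nonempty wr_cls wrAct)

/-- a regular Galois group over `K` is in the class over the trivial group -/
theorem cls_of_regular (K : Type) [Field K] (A : Type) [Group A] [Finite A]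
    (hA : RegularOver K A) {G₀ : Type} [Group G₀] [Subsingleton G₀] :
    Cls K (1 : A →* G₀) := by
  refine Cls.inner _ A hA ⟨1, 1, Pi.evalMonoidHom _ 0, 1, ?_, ?_, ?_, ?_⟩
  · intro x y hxy
    funext i
    rw [Subsingleton.elim i 0]
    exact hxy
  · rw [MonoidHom.ker_one]
    rw [MonoidHom.range_eq_top]
    intro x
    exact ⟨fun _ => x, rfl⟩
  · intro w
    exact Subsingleton.elim _ _
  · intro w x
    simp

/-- the trivial Galois group -/
theorem subsing (K : Type) [Field K] : Subsingleton (K ≃ₐ[K] K) := ⟨fun σ τ => by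
  ext x
  exact (σ.commutes x).trans (τ.commutes x).symm⟩

theorem gal_perm (K : Type) [Field K] [NumberField K] (m : ℕ) :
    (Pool.Agent.TH444.ML.Gal K (AlgebraicClosure K) (Equiv.Perm (Fin m))).Nonempty := by
  have := subsing K
  exact gal_nonempty K (AlgebraicClosure K) K (Equiv.Perm (Fin m)) 1
    (cls_of_regular K _ (Pool.Agent.N600.UK.regularOver_perm K m))

theorem gal_wr (K : Type) [Field K] [NumberField K] (A : Type) [Group A] [Finite A] (m : ℕ)
    (hm : ((3 * Nat.card A + 2).factorial) ^ 3 ≤ m) :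
    (Pool.Agent.TH444.ML.Gal K (AlgebraicClosure K) (Wr A m)).Nonempty := by
  have := subsing K
  exact gal_nonempty K (AlgebraicClosure K) K (Wr A m) 1 (wr_cls K A m hm)

/-- a transitive faithful set `Q` gives the subgroup in `LargeAct` -/
theorem largeAct_of {H P Q : Type} [Group H] [Finite H] [MulAction H P] [MulAction H Q]
    [MulAction.IsPretransitive H Q] [FaithfulSMul H Q] [Nonempty P] [Nonempty Q]
    (h : ((∃ f : P → Q, ∀ (h : H) (x : P), f (h • x) = h • f x) ∧
        8 * Nat.card Q * (Nat.card Q + 1) ≤ Nat.card P) ∨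
      8 * Nat.log 2 (Nat.card H) * Nat.card Q * (Nat.card Q + 1) ≤ Nat.card P) : LargeAct H P := by
  rcases h with ⟨⟨f, hf⟩, hc⟩ | hc
  · obtain ⟨x₀⟩ := ‹Nonempty P›
    refine ⟨MulAction.stabilizer H (f x₀), normalCore_stab _, Or.inl ⟨?_, x₀, ?_⟩⟩
    · rwa [index_stab]
    · intro h hh
      rw [MulAction.mem_stabilizer_iff] at hh ⊢
      rw [← hf, hh]
  · obtain ⟨y⟩ := ‹Nonempty Q›
    refine ⟨MulAction.stabilizer H y, normalCore_stab _, Or.inr ?_⟩
    rwa [index_stab]

/-- `S_m` on the `k`-tuples of distinct elements -/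
theorem tuples_card (m k : ℕ) (hm : 12 ≤ m) (hk : 3 ≤ k) (hkm : k ≤ m) :
    8 * m * (m + 1) ≤ Nat.card (Fin k ↪ Fin m) := by
  rw [Nat.card_eq_fintype_card, Fintype.card_embedding_eq, Fintype.card_fin,
    Fintype.card_fin]
  have h1 : m.descFactorial 3 ≤ m.descFactorial k := by
    obtain ⟨j, rfl⟩ := Nat.exists_eq_add_of_le hk
    clear hk
    induction j with
    | zero => exact le_rfl
    | succ j ih =>
      refine (ih (by omega)).trans ?_
      rw [show 3 + (j + 1) = (3 + j) + 1 by ring, Nat.descFactorial_succ]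
      exact Nat.le_mul_of_pos_left _ (by omega)
  refine le_trans ?_ h1
  obtain ⟨j, rfl⟩ := Nat.exists_eq_add_of_le hm
  have e : (12 + j).descFactorial 3 = (12 + j) * ((11 + j) * (10 + j)) := by
    rw [Nat.descFactorial_succ, Nat.descFactorial_succ, Nat.descFactorial_succ,
      Nat.descFactorial_zero]
    have e1 : 12 + j - 2 = 10 + j := by omega
    have e2 : 12 + j - 1 = 11 + j := by omega
    have e3 : 12 + j - 0 = 12 + j := by omega
    rw [e1, e2, e3]
    ring
  rw [e]
  nlinarith

theorem log_fact (m : ℕ) (hm : 128 ≤ m) : Nat.log 2 m.factorial ≤ m * (m / 16) := by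
  have h1 : ∀ k : ℕ, 8 ≤ k → 16 * (k + 1) ≤ 2 ^ k := by
    intro k hk
    obtain ⟨j, rfl⟩ := Nat.exists_eq_add_of_le hk
    clear hk
    induction j with
    | zero => norm_num
    | succ j ih =>
      rw [show 8 + (j + 1) = (8 + j) + 1 by ring, pow_succ]
      omega
  have h2 : m < 2 ^ (m / 16) := by
    have h3 := h1 (m / 16) (by omega)
    omega
  have h4 : m.factorial ≤ 2 ^ (m * (m / 16)) := by
    calc m.factorial ≤ m ^ m := Nat.factorial_le_pow m
      _ ≤ (2 ^ (m / 16)) ^ m := Nat.pow_le_pow_left h2.le m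
      _ = 2 ^ (m * (m / 16)) := by rw [← pow_mul, mul_comm]
  calc Nat.log 2 m.factorial ≤ Nat.log 2 (2 ^ (m * (m / 16))) := Nat.log_mono_right h4
    _ = m * (m / 16) := Nat.log_pow (by norm_num) _

theorem choose_five (m k : ℕ) (hk : 5 ≤ k) (hkm : k + 5 ≤ m) : m.choose 5 ≤ m.choose k := by
  have key : ∀ k, 5 ≤ k → k ≤ m / 2 → m.choose 5 ≤ m.choose k := by
    intro k hk hkm
    obtain ⟨j, rfl⟩ := Nat.exists_eq_add_of_le hk
    clear hk
    induction j with
    | zero => exact le_rfl
    | succ j ih =>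
      refine (ih (by omega)).trans ?_
      exact Nat.choose_le_succ_of_lt_half_left (by omega)
  rcases le_or_gt k (m / 2) with h | h
  · exact key k hk h
  · rw [← Nat.choose_symm (show k ≤ m by omega)]
    exact key _ (by omega) (by omega)

/-- `S_m` on the `k`-subsets -/
theorem subsets_card (m k : ℕ) (hm : 128 ≤ m) (hk : 5 ≤ k) (hkm : k + 5 ≤ m) :
    8 * Nat.log 2 m.factorial * m * (m + 1) ≤ m.choose k := by
  refine le_trans ?_ (choose_five m k hk hkm)
  have h1 := log_fact m hm
  have h2 : 16 * (m / 16) ≤ m := Nat.mul_div_le m 16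
  have h3 : 120 * m.choose 5 = m * (m - 1) * (m - 2) * (m - 3) * (m - 4) := by
    have h4 := Nat.descFactorial_eq_factorial_mul_choose m 5
    have h5 : Nat.factorial 5 = 120 := rfl
    rw [h5] at h4
    rw [← h4]
    simp only [Nat.descFactorial_succ, Nat.descFactorial_zero]
    rw [Nat.sub_zero]
    ring
  have h6 : 2 * (8 * Nat.log 2 m.factorial * m * (m + 1)) ≤ m * m * m * (m + 1) := by
    calc 2 * (8 * Nat.log 2 m.factorial * m * (m + 1))
        ≤ 2 * (8 * (m * (m / 16)) * m * (m + 1)) := by gcongr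
      _ = m * (16 * (m / 16)) * m * (m + 1) := by ring
      _ ≤ m * m * m * (m + 1) := by gcongr
  have h7 : 60 * (m * m * m * (m + 1)) ≤ m * (m - 1) * (m - 2) * (m - 3) * (m - 4) := by
    obtain ⟨j, rfl⟩ := Nat.exists_eq_add_of_le hm
    have e1 : 128 + j - 1 = 127 + j := by omega
    have e2 : 128 + j - 2 = 126 + j := by omega
    have e3 : 128 + j - 3 = 125 + j := by omega
    have e4 : 128 + j - 4 = 124 + j := by omega
    rw [e1, e2, e3, e4]
    have h8 : 60 * ((128 + j) * (128 + j) * (128 + j + 1)) ≤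
        (127 + j) * (126 + j) * (125 + j) * (124 + j) := by
      ring_nf
      nlinarith [Nat.zero_le j, Nat.zero_le (j ^ 2), Nat.zero_le (j ^ 3), Nat.zero_le (j ^ 4)]
    calc 60 * ((128 + j) * (128 + j) * (128 + j) * (128 + j + 1))
        = (128 + j) * (60 * ((128 + j) * (128 + j) * (128 + j + 1))) := by ring
      _ ≤ (128 + j) * ((127 + j) * (126 + j) * (125 + j) * (124 + j)) := Nat.mul_le_mul_left _ h8
      _ = _ := by ring
  omega

end Pool.Agent.U737.MN

namespace Pool.Agent.U737.MN

open Pool.Agent.H391R2 (Wr)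
open Pool.Agent.TH444.ML (wrAct)

theorem wr_trans (A : Type) [Group A] (m : ℕ) :
    letI := wrAct A m
    ∀ x y : A × Fin m, ∃ w : Wr A m, w • x = y := by
  classical
  letI := wrAct A m
  have hdef : ∀ (w : Wr A m) (x : A × Fin m),
      w • x = (w.left (w.right x.2) * x.1, w.right x.2) := fun _ _ => rfl
  rintro ⟨a, i⟩ ⟨b, j⟩
  refine ⟨⟨fun _ => b * a⁻¹, Equiv.swap i j⟩, ?_⟩
  rw [hdef]
  simp

theorem wr_faithful (A : Type) [Group A] (m : ℕ) :
    letI := wrAct A m
    ∀ w : Wr A m, (∀ x : A × Fin m, w • x = x) → w = 1 := by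
  letI := wrAct A m
  have hdef : ∀ (w : Wr A m) (x : A × Fin m),
      w • x = (w.left (w.right x.2) * x.1, w.right x.2) := fun _ _ => rfl
  intro x hfix
  have hr : x.right = 1 := by
    ext i
    have := congrArg (fun z : A × Fin m => (z.2 : ℕ)) (hfix (1, i))
    simpa [hdef] using this
  apply SemidirectProduct.ext
  · funext i
    have := congrArg Prod.fst (hfix (1, i))
    rw [hdef] at this
    simp only [hr, Equiv.Perm.one_apply, mul_one] at this
    exact this
  · exact hr

end Pool.Agent.U737.MN
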