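import Mathlib

/-!
# Bases of faithful actions
-/

set_option autoImplicit false

namespace Pool.Agent.U737.MN

theorem exists_base_aux {H P : Type} [Group H] [Finite H] [MulAction H P] [FaithfulSMul H P] :
    ∀ (n : ℕ) (W : Subgroup H), Nat.card W ≤ n →
      ∃ S : Finset P, (∀ h ∈ W, (∀ x ∈ S, h • x = x) → h = 1) ∧ 2 ^ S.card ≤ Nat.card W := by
  classical
  intro n
  induction n with
  | zero =>
    intro W hW
    have : 0 < Nat.card W := Nat.card_pos
    omega
  | succ n ih =>
    intro W hW
    by_cases hb : W = ⊥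
    · refine ⟨∅, ?_, ?_⟩
      · intro h hh _
        rw [hb, Subgroup.mem_bot] at hh
        exact hh
      · simp [hb]
    · obtain ⟨w, hw, hw1⟩ := (Subgroup.ne_bot_iff_exists_ne_one.1 hb).elim
        (fun a ha => (⟨a.1, a.2, fun h => ha (Subtype.ext h)⟩ : ∃ w, w ∈ W ∧ w ≠ 1))
      obtain ⟨x, hx⟩ : ∃ x : P, w • x ≠ x := by
        by_contra hcon
        push Not at hcon
        exact hw1 (FaithfulSMul.eq_of_smul_eq_smul (α := P) fun y => by rw [hcon y, one_smul])
      set W' : Subgroup H := W ⊓ MulAction.stabilizer H x with hW'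
      have hle : W' ≤ W := inf_le_left
      have hne : W' ≠ W := by
        intro h
        have : w ∈ W' := by rw [h]; exact hw
        exact hx (MulAction.mem_stabilizer_iff.1 (Subgroup.mem_inf.1 this).2)
      have hcard : 2 * Nat.card W' ≤ Nat.card W := by
        obtain ⟨k, hk⟩ := Subgroup.card_dvd_of_le hle
        have hpos : 0 < Nat.card W := Nat.card_pos
        have hk2 : 2 ≤ k := by
          by_contra hk2
          have hk3 : k = 0 ∨ k = 1 := by omega
          rcases hk3 with rfl | rfl
          · omega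
          · apply hne
            apply Subgroup.eq_of_le_of_card_ge hle
            rw [hk, mul_one]
        rw [hk, mul_comm 2]
        exact Nat.mul_le_mul_left _ hk2
      have hpos' : 0 < Nat.card W' := Nat.card_pos
      obtain ⟨S, hS1, hS2⟩ := ih W' (by omega)
      refine ⟨insert x S, ?_, ?_⟩
      · intro h hh hfix
        refine hS1 h (Subgroup.mem_inf.2 ⟨hh, ?_⟩) fun y hy => hfix y (Finset.mem_insert_of_mem hy)
        exact MulAction.mem_stabilizer_iff.2 (hfix x (Finset.mem_insert_self x S))
      · calc 2 ^ (insert x S).card ≤ 2 ^ (S.card + 1) :=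
              Nat.pow_le_pow_right (by norm_num) (Finset.card_insert_le x S)
          _ = 2 * 2 ^ S.card := by rw [pow_succ, mul_comm]
          _ ≤ 2 * Nat.card W' := Nat.mul_le_mul_left _ hS2
          _ ≤ Nat.card W := hcard

/-- every faithful action of a finite group has a base of at most `log₂ |H|` points -/
theorem exists_base (H P : Type) [Group H] [Finite H] [MulAction H P] [FaithfulSMul H P] :
    ∃ S : Finset P, (∀ h : H, (∀ x ∈ S, h • x = x) → h = 1) ∧ 2 ^ S.card ≤ Nat.card H := by
  obtain ⟨S, h1, h2⟩ := exists_base_aux (H := H) (P := P) (Nat.card (⊤ : Subgroup H)) ⊤ le_rfl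
  refine ⟨S, fun h => h1 h trivial, ?_⟩
  rwa [Subgroup.card_top] at h2

end Pool.Agent.U737.MN
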