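import Pool.Agent.U737.MN.Stm

/-!
# Second part of project MN: all faithful transitive actions of large degree
-/

set_option autoImplicit false

open NumberField Filter Topology

namespace Pool.Agent.U737.MN

open Pool.Agent.TH444.ML (dsc)

/-- the different of a compositum -/
def DiffDvd : Prop :=
  ∀ (A B N : Type) [Field A] [NumberField A] [Field B] [NumberField B] [Field N] [NumberField N]
    [Algebra A N] [Algebra B N],
    (∀ S : Subfield N, (algebraMap A N).fieldRange ≤ S → (algebraMap B N).fieldRange ≤ S → S = ⊤) →
    differentIdeal (𝓞 A) (𝓞 N) ∣ (differentIdeal ℤ (𝓞 B)).map (algebraMap (𝓞 B) (𝓞 N))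

/-- the root discriminant of a compositum -/
def DiscSup : Prop :=
  ∀ (K Ω : Type) [Field K] [NumberField K] [Field Ω] [Algebra K Ω]
    (A B : IntermediateField K Ω) [FiniteDimensional K A] [FiniteDimensional K B],
    Real.log (dsc (A ⊔ B)) / Module.finrank K (A ⊔ B : IntermediateField K Ω) ≤
      Real.log (dsc A) / Module.finrank K A + Real.log (dsc B) / Module.finrank K B

/-- few extensions with group `H` on `P`, for all faithful transitive actions of large degree:
`S` is a base (a set of points with trivial joint stabilizer) -/
def FewGal2 : Prop :=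
  ∀ (K Ω : Type) [Field K] [NumberField K] [Field Ω] [Algebra K Ω] [IsAlgClosure K Ω]
    (H P : Type) [Group H] [Finite H] [MulAction H P] [Finite P]
    [MulAction.IsPretransitive H P] [FaithfulSMul H P] (S : Finset P) (U : Subgroup H),
    S.Nonempty → (∀ h : H, (∀ x ∈ S, h • x = x) → h = 1) → U.normalCore = ⊥ →
    8 * S.card * U.index * (U.index + 1) ≤ Nat.card P →
    Summable (fun M : Gal K Ω H P => (dsc M.1) ^ (-(1 / 4) : ℝ))

end Pool.Agent.U737.MN
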