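import Pool.Agent.TH444.ML.Defs2

/-!
# Malle's conjecture for `C₂ ≀ H`, `H` acting on a set `X` : definitions and statements (project MN)

`H` is a finite group acting transitively and faithfully on the finite set `X`; `C₂ ≀ H` acts on
`X × {0,1}`.  The regular case `X = H` is `Pool.Agent.TH444.ML`.
-/

set_option autoImplicit false

open NumberField Filter Topology

namespace Pool.Agent.U737.MN

open Pool.Agent.TH444.ML (dsc QS DiscQuad KumP IsK Rep Sqf)

/-- the wreath product `C₂ ≀ H` acting on `X × Bool` -/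
def Wr2 (H X : Type) [Group H] [MulAction H X] : Set (Equiv.Perm (X × Bool)) :=
  {π | ∃ h : H, ∀ x : X × Bool, (π x).1 = h • x.1}

/-- `L/K` has Galois group `C₂ ≀ H` (as a permutation group on the embeddings) -/
def IsWr (K Ω : Type) [Field K] [Field Ω] [Algebra K Ω] (H X : Type) [Group H] [MulAction H X]
    (L : IntermediateField K Ω) : Prop :=
  ∃ e : (L →ₐ[K] Ω) ≃ X × Bool, ∀ π : Equiv.Perm (X × Bool), π ∈ Wr2 H X ↔
    ∃ σ : Ω ≃ₐ[K] Ω, ∀ φ : L →ₐ[K] Ω, e (σ.toAlgHom.comp φ) = π (e φ)

/-- extensions of degree `|X|` whose Galois group is `H` acting on `X` -/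
def Gal (K Ω : Type) [Field K] [Field Ω] [Algebra K Ω] (H X : Type) [Group H] [MulAction H X] :
    Set (IntermediateField K Ω) :=
  {M | FiniteDimensional K M ∧ ∃ e : (M →ₐ[K] Ω) ≃ X, ∀ π : Equiv.Perm X,
    (∃ h : H, ∀ x, π x = h • x) ↔
      ∃ σ : Ω ≃ₐ[K] Ω, ∀ φ : M →ₐ[K] Ω, e (σ.toAlgHom.comp φ) = π (e φ)}

/-- degree of the normal closure in `Ω` -/
noncomputable def nc {K Ω : Type} [Field K] [Field Ω] [Algebra K Ω]
    (M : IntermediateField K Ω) : ℕ :=
  Module.finrank K (IntermediateField.normalClosure K M Ω)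

/-- the subfields `M` of `L` which show that `L/K` has group `C₂ ≀ H` -/
def Mid (K Ω : Type) [Field K] [Field Ω] [Algebra K Ω] (H X : Type) [Group H] [MulAction H X]
    (L M : IntermediateField K Ω) : Prop :=
  M ∈ Gal K Ω H X ∧ M ≤ L ∧ FiniteDimensional K L ∧ Module.finrank K L = 2 * Module.finrank K M ∧
    nc L = 2 ^ Module.finrank K M * nc M

/-- description of the extensions with group `C₂ ≀ H` -/
def WrIff : Prop :=
  ∀ (K Ω : Type) [Field K] [NumberField K] [Field Ω] [Algebra K Ω] [IsAlgClosure K Ω]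
    (H X : Type) [Group H] [Finite H] [MulAction H X] [Finite X] [Nonempty X]
    [MulAction.IsPretransitive H X] [FaithfulSMul H X] (L : IntermediateField K Ω),
    (Module.finrank K L = 2 * Nat.card X ∧ IsWr K Ω H X L) ↔ ∃ M, Mid K Ω H X L M

/-- the fields isomorphic to an extension with group `C₂ ≀ H` : there are `|X|` of them in `Ω` -/
def WrConj : Prop :=
  ∀ (K Ω : Type) [Field K] [NumberField K] [Field Ω] [Algebra K Ω] [IsAlgClosure K Ω]
    (H X : Type) [Group H] [Finite H] [MulAction H X] [Finite X] [Nonempty X]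
    (L : IntermediateField K Ω),
    Module.finrank K L = 2 * Nat.card X → IsWr K Ω H X L →
    Set.ncard {L' : IntermediateField K Ω | Nonempty (L ≃ₐ[K] L')} = Nat.card X

/-- uniqueness of `M` -/
def MidUnique : Prop :=
  ∀ (K Ω : Type) [Field K] [NumberField K] [Field Ω] [Algebra K Ω] [IsAlgClosure K Ω]
    (H X : Type) [Group H] [Finite H] [MulAction H X] [Finite X] [Nonempty X]
    [MulAction.IsPretransitive H X] [FaithfulSMul H X] (L M M' : IntermediateField K Ω),
    Mid K Ω H X L M → Mid K Ω H X L M' → M = M'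

/-- few extensions with group `H` on `X` -/
def FewGal : Prop :=
  ∀ (K Ω : Type) [Field K] [NumberField K] [Field Ω] [Algebra K Ω] [IsAlgClosure K Ω]
    (H X : Type) [Group H] [Finite H] [MulAction H X] [Finite X]
    [MulAction.IsPretransitive H X] (x₀ : X) (U : Subgroup H),
    MulAction.stabilizer H x₀ ≤ U → U.normalCore = ⊥ →
    8 * (U.index + 1) ≤ (MulAction.stabilizer H x₀).relIndex U →
    Summable (fun M : Gal K Ω H X => (dsc M.1) ^ (-(1 / 4) : ℝ))

/-- a realization of `H` gives a realization of `H` on `X` -/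
def Exist : Prop :=
  ∀ (K Ω : Type) [Field K] [NumberField K] [Field Ω] [Algebra K Ω] [IsAlgClosure K Ω]
    (H X : Type) [Group H] [Finite H] [MulAction H X] [Finite X] [Nonempty X]
    [MulAction.IsPretransitive H X] [FaithfulSMul H X],
    (Pool.Agent.TH444.ML.Gal K Ω H).Nonempty → (Gal K Ω H X).Nonempty

/-- squarefree ideals `𝔡` of `M` such that for no prime `p` in the set `T` exactly one prime
above `p` divides `𝔡` -/
def badId (K M : Type) [Field K] [NumberField K] [Field M] [NumberField M] [Algebra K M]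
    (T : Set (Ideal (𝓞 K))) : Set (Ideal (𝓞 M)) :=
  {𝔡 | Squarefree 𝔡 ∧ ∀ p ∈ T, ¬ ∃! P : Ideal (𝓞 M), P ∈ p.primesOver (𝓞 M) ∧ P ∣ 𝔡}

/-- the primes of `K` which are totally split in `N` -/
def spl (K N : Type) [Field K] [NumberField K] [Field N] [NumberField N] [Algebra K N] :
    Set (Ideal (𝓞 K)) :=
  {p | p.IsPrime ∧ p ≠ ⊥ ∧ Set.ncard (p.primesOver (𝓞 N)) = Module.finrank K N}

/-- totally split primes go down -/
def SplDown : Prop :=
  ∀ (K M N : Type) [Field K] [NumberField K] [Field M] [NumberField M] [Field N] [NumberField N]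
    [Algebra K M] [Algebra K N] [Algebra M N] [IsScalarTower K M N], spl K N ⊆ spl K M

/-- the sieve -/
def Sieve : Prop :=
  ∀ (K M N : Type) [Field K] [NumberField K] [Field M] [NumberField M] [Field N] [NumberField N]
    [Algebra K M] [Algebra K N] [Algebra M N] [IsScalarTower K M N] [IsGalois K N],
    Tendsto (fun Z : ℝ =>
      (Set.ncard {𝔡 : Ideal (𝓞 M) | 𝔡 ∈ badId K M (spl K N) ∧ (Ideal.absNorm 𝔡 : ℝ) ≤ Z} : ℝ) / Z)
      atTop (𝓝 0)

/-- Kummer theory: if the normal closure of `M(√α)` over `K` is smaller than expected, a product of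
conjugates of `α` is a square in the normal closure `N` of `M` -/
def NotFull : Prop :=
  ∀ (K Ω : Type) [Field K] [NumberField K] [Field Ω] [Algebra K Ω] [IsAlgClosure K Ω]
    (M : IntermediateField K Ω) [FiniteDimensional K M]
    (L : IntermediateField K Ω), M ≤ L → ∀ (α : M) (s : Ω), α ≠ 0 →
    s ^ 2 = (α : Ω) → s ∉ M → L = M ⊔ IntermediateField.adjoin K {s} →
    nc L ≠ 2 ^ Module.finrank K M * nc M →
    ∃ S : Finset (M →ₐ[K] IntermediateField.normalClosure K M Ω), S.Nonempty ∧
      IsSquare (∏ φ ∈ S, φ α)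

/-- the squarefree part of an `α` with a product of conjugates a square is bad -/
def SqBad : Prop :=
  ∀ (K M N : Type) [Field K] [NumberField K] [Field M] [NumberField M] [Field N] [NumberField N]
    [Algebra K M] [Algebra K N] [Algebra M N] [IsScalarTower K M N] [IsGalois K N]
    (α : 𝓞 M) (𝔡 𝔠 : Ideal (𝓞 M)) (S : Finset (M →ₐ[K] N)), α ≠ 0 →
    Squarefree 𝔡 → Ideal.span {α} = 𝔡 * 𝔠 ^ 2 → S.Nonempty →
    IsSquare (∏ φ ∈ S, φ (α : M)) → 𝔡 ∈ badId K M (spl K N)

/-- the quadratic extensions `L` of `M` with small normal closure over `K` are few -/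
def BadSmall : Prop :=
  ∀ (K Ω : Type) [Field K] [NumberField K] [Field Ω] [Algebra K Ω] [IsAlgClosure K Ω]
    (M : IntermediateField K Ω) [FiniteDimensional K M],
    Tendsto (fun Y : ℝ => (Set.ncard {L : IntermediateField K Ω | M ≤ L ∧
      Module.finrank K L = 2 * Module.finrank K M ∧
      nc L ≠ 2 ^ Module.finrank K M * nc M ∧ dsc L ≤ Y * dsc M ^ 2} : ℝ) / Y)
      atTop (𝓝 0)

end Pool.Agent.U737.MN
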