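import Pool.Agent.U737.MN.Fin
import Pool.Agent.U737.MN.WrConj
import Pool.Agent.U737.MN.Stm2
import Pool.Agent.U737.MN.Base

/-!
# The asymptotic formula for `C₂ ≀ H`, `H` acting on `P`
-/

set_option autoImplicit false
set_option linter.unusedSectionVars false

open NumberField Filter Topology

namespace Pool.Agent.U737.MN

open Pool.Agent.TH444.ML (dsc HasGp Cnt QuadLim QuadPos QuadUnif)

/-- the inputs -/
structure Inp : Prop where
  quadLim : QuadLim
  quadPos : QuadPos
  quadUnif : QuadUnif
  badSmall : BadSmall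
  wrIff : WrIff
  midUnique : MidUnique
  exist : Exist
  fewGal : FewGal
  fewGal2 : FewGal2

section group

variable {H Q : Type} [Group H] [Finite H] [MulAction H Q] [MulAction.IsPretransitive H Q]

theorem normalCore_stab [FaithfulSMul H Q] (y : Q) :
    (MulAction.stabilizer H y).normalCore = ⊥ := by
  rw [eq_bot_iff]
  intro x hx
  rw [Subgroup.mem_bot]
  apply FaithfulSMul.eq_of_smul_eq_smul (α := Q)
  intro z
  obtain ⟨w, rfl⟩ := MulAction.exists_smul_eq H y z
  have h1 : w⁻¹ * x * w ∈ MulAction.stabilizer H y := by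
    have := hx w⁻¹
    simpa using this
  rw [MulAction.mem_stabilizer_iff, mul_smul, mul_smul, inv_smul_eq_iff] at h1
  rw [one_smul]
  exact h1

theorem index_stab (y : Q) : (MulAction.stabilizer H y).index = Nat.card Q :=
  MulAction.index_stabilizer_of_transitive H y

end group

/-- the numerical condition: `U` is a core-free subgroup of index `q`, and `8 q (q + 1) ≤ |P|` if `U`
contains the stabilizer of a point, `8 log₂ |H| q (q + 1) ≤ |P|` in general -/
def LargeAct (H P : Type) [Group H] [MulAction H P] : Prop :=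
  ∃ U : Subgroup H, U.normalCore = ⊥ ∧
    ((8 * U.index * (U.index + 1) ≤ Nat.card P ∧ ∃ x : P, MulAction.stabilizer H x ≤ U) ∨
      8 * Nat.log 2 (Nat.card H) * U.index * (U.index + 1) ≤ Nat.card P)

section

variable (r : Inp) (K : Type) [Field K] [NumberField K] (H P : Type) [Group H] [Finite H]
  [MulAction H P] [Finite P] [Nonempty P] [MulAction.IsPretransitive H P] [FaithfulSMul H P]
include r

theorem summable_of_large (hL : LargeAct H P) :
    Summable (fun M : Gal K (AlgebraicClosure K) H P => (dsc M.1) ^ (-(1 / 4) : ℝ)) := by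
  classical
  obtain ⟨U, hU, h | h⟩ := hL
  · obtain ⟨hc, x₀, hx⟩ := h
    refine r.fewGal K (AlgebraicClosure K) H P x₀ U hx hU ?_
    have h1 := Subgroup.relIndex_mul_index hx
    rw [index_stab] at h1
    have h2 : 0 < U.index := Nat.pos_of_ne_zero Subgroup.index_ne_zero_of_finite
    rw [← h1] at hc
    have h3 : U.index * (8 * (U.index + 1)) ≤
        U.index * (MulAction.stabilizer H x₀).relIndex U := by
      calc _ = 8 * U.index * (U.index + 1) := by ring
        _ ≤ _ := hc
        _ = _ := by ring
    exact Nat.le_of_mul_le_mul_left h3 h2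
  · obtain ⟨S, hS1, hS2⟩ := exists_base H P
    rcases S.eq_empty_or_nonempty with rfl | hne
    · -- the trivial group
      have hsub : Subsingleton H :=
        ⟨fun a b => (hS1 a (by simp)).trans (hS1 b (by simp)).symm⟩
      have hP : Subsingleton P := by
        refine ⟨fun x y => ?_⟩
        obtain ⟨g, hg⟩ := MulAction.exists_smul_eq H x y
        rw [Subsingleton.elim g 1, one_smul] at hg
        exact hg
      have hac : IsAlgClosed (AlgebraicClosure K) := inferInstance
      have hs : Subsingleton (Gal K (AlgebraicClosure K) H P) := by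
        have key : ∀ M : Gal K (AlgebraicClosure K) H P, M.1 = ⊥ := by
          rintro ⟨M, hfd, e, -⟩
          have hcard : Module.finrank K M = Nat.card P := by
            rw [← AlgHom.card K M (AlgebraicClosure K), ← Nat.card_eq_fintype_card]
            exact Nat.card_congr e
          have h1 : Nat.card P = 1 := Nat.card_eq_one_iff_unique.2 ⟨hP, inferInstance⟩
          rw [h1] at hcard
          exact IntermediateField.finrank_eq_one_iff.1 hcard
        exact ⟨fun a b => Subtype.ext ((key a).trans (key b).symm)⟩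
      have : Finite (Gal K (AlgebraicClosure K) H P) := inferInstance
      exact summable_of_finite_support (Set.toFinite _)
    · refine r.fewGal2 K (AlgebraicClosure K) H P S U hne hS1 hU (le_trans ?_ h)
      have h1 : S.card ≤ Nat.log 2 (Nat.card H) :=
        (Nat.le_log_iff_pow_le (by norm_num) Nat.card_pos.ne').2 hS2
      gcongr

theorem asymp (hL : LargeAct H P)
    (hne : (Pool.Agent.TH444.ML.Gal K (AlgebraicClosure K) H).Nonempty) {n : ℕ}
    (G : Subgroup (Equiv.Perm (Fin n))) (hG : IsC2Wr H P G) :
    (∀ X : ℝ, 0 < X → (Cnt K G X).Finite) ∧ ∃ c : ℝ, 0 < c ∧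
      Tendsto (fun X : ℝ => (Set.ncard (Cnt K G X) : ℝ) / X) atTop (𝓝 c) := by
  have hd : 0 < ((|discr K| : ℤ) : ℝ) ^ n := by
    have : (0 : ℤ) < |discr K| := abs_pos.2 (discr_ne_zero K)
    have : (0 : ℝ) < ((|discr K| : ℤ) : ℝ) := by exact_mod_cast this
    positivity
  have h := main_asymp (K := K) (Ω := AlgebraicClosure K) (H := H) (P := P) r.quadLim r.quadPos
    r.quadUnif r.badSmall r.wrIff r.midUnique (summable_of_large r K H P hL)
    (r.exist K (AlgebraicClosure K) H P hne) _ hd
  simp only [cnt_eq K hG]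
  exact h

/-- up to isomorphism -/
theorem asymp_iso (hL : LargeAct H P)
    (hne : (Pool.Agent.TH444.ML.Gal K (AlgebraicClosure K) H).Nonempty) {n : ℕ}
    (G : Subgroup (Equiv.Perm (Fin n))) (hG : IsC2Wr H P G) :
    ∃ c : ℝ, 0 < c ∧ Tendsto (fun X : ℝ =>
      (Nat.card (Quot (fun L L' : Cnt K G X => Nonempty (L.1 ≃ₐ[K] L'.1))) : ℝ) / X)
        atTop (𝓝 c) := by
  obtain ⟨hfin, c, hc0, hlim⟩ := asymp r K H P hL hne G hG
  have hpos : (0 : ℝ) < Nat.card P := by exact_mod_cast Nat.card_pos
  refine ⟨c / Nat.card P, by positivity, ?_⟩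
  have h := hlim.div_const (Nat.card P : ℝ)
  refine h.congr' ?_
  filter_upwards [eventually_gt_atTop (0 : ℝ)] with X hX
  have hX' := hfin X hX
  rw [cnt_eq K hG] at hX' ⊢
  have hq := quot_TT (K := K) (Ω := AlgebraicClosure K) (H := H) (P := P) t_WrConj _ hX'
  rw [← hq]
  push_cast
  field_simp

end

end Pool.Agent.U737.MN
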