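import Pool.Agent.U737.MN.Tower
import Pool.Agent.U737.MN.Done
import Pool.Agent.U858.MN.DegL
import Pool.Agent.U446.MN.BackL
import Pool.Agent.U458.MN.ForwL
import Pool.Agent.U128.MN.NotFullL
import Pool.Agent.U594.MN.NotPow
import Pool.Agent.U869.MN.DiscUp
import Pool.Agent.U789.MN.DiscLow
import Pool.Agent.U261.MN.TupUnif
import Pool.Agent.U278.MN.KumUnif
import Pool.Agent.U876.MN.Many
import Pool.Agent.U928.MN.InjL
import Pool.Agent.U765.MN.IndL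

/-!
# All inputs for `C_ℓ ≀ H`, and the theorem for towers
-/

set_option autoImplicit false

open NumberField Filter Topology

namespace Pool.Agent.U737.MN

open Pool.Agent.TH444.ML (dsc HasGp Cnt)

theorem inpL : InpL where
  degL := Pool.Agent.U858.MN.t_DegL
  backL := Pool.Agent.U446.MN.t_BackL Pool.Agent.U858.MN.t_DegL
  forwL := Pool.Agent.U458.MN.t_ForwL
  notFullL := Pool.Agent.U128.MN.t_NotFullL
  notPow := Pool.Agent.U594.MN.t_NotPow Pool.Agent.U980.MN.t_SplDown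
  discUp := Pool.Agent.U869.MN.t_DiscUp Pool.Agent.U858.MN.t_DegL
  kumUnif := t_KumUnif2 (Pool.Agent.U789.MN.t_DiscLow Pool.Agent.U858.MN.t_DegL)
    Pool.Agent.U261.MN.t_TupUnif
  many := Pool.Agent.U876.MN.t_Many
  injL := Pool.Agent.U928.MN.t_InjL Pool.Agent.U858.MN.t_DegL
  splitSum := Pool.Agent.TH857.J3095.splitSum

/-- the induction -/
theorem tower_good (K : Type) [Field K] [NumberField K] (H P : Type) [Group H]
    [Finite H] [MulAction H P] [Finite P] [Nonempty P] [MulAction.IsPretransitive H P]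
    [FaithfulSMul H P] (hL : Good K H P) (ls : List ℕ) (n : ℕ)
    (G : Subgroup (Equiv.Perm (Fin n))) (hG : Tower H P ls n G) :
    (∀ ℓ ∈ ls, ℓ.Prime ∧ HasZ ℓ K) → (∀ ℓ ∈ ls, 3 ≤ ℓ) →
      Good K G (Fin n) ∧ MulAction.IsPretransitive G (Fin n) ∧ 0 < n := by
  induction hG with
  | one ℓ n G hG =>
    intro h1 h2
    obtain ⟨h3, h4⟩ := h1 ℓ (by simp)
    refine ⟨good_step inpL K H P hL ℓ h3 (h2 ℓ (by simp)) h4 G hG, trans_of hG, ?_⟩
    rw [clwr_n hG]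
    exact Nat.mul_pos h3.pos Nat.card_pos
  | step ℓ ls m n G G' hT hG' ih =>
    intro h1 h2
    obtain ⟨g1, g2, g3⟩ := ih (fun l hl => h1 l (by simp [hl])) (fun l hl => h2 l (by simp [hl]))
    obtain ⟨h3, h4⟩ := h1 ℓ (by simp)
    have hne : Nonempty (Fin m) := ⟨⟨0, g3⟩⟩
    refine ⟨good_step inpL K G (Fin m) g1 ℓ h3 (h2 ℓ (by simp)) h4 G' hG', trans_of hG', ?_⟩
    rw [clwr_n hG']
    exact Nat.mul_pos h3.pos Nat.card_pos

/-- the theorem for towers: all primes except the first one are odd -/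
theorem tower_weak (K : Type) [Field K] [NumberField K] (H P : Type) [Group H]
    [Finite H] [MulAction H P] [Finite P] [Nonempty P] [MulAction.IsPretransitive H P]
    [FaithfulSMul H P] (hL : Good K H P) (ℓ : ℕ) (ls : List ℕ) (n : ℕ)
    (G : Subgroup (Equiv.Perm (Fin n))) (hG : Tower H P (ℓ :: ls) n G)
    (h1 : ∀ l ∈ ℓ :: ls, l.Prime ∧ HasZ l K) (h2 : ∀ l ∈ ls, 3 ≤ l) :
    (IsLeast {j : ℕ | ∃ g ∈ G, g ≠ 1 ∧ j = g.cycleType.sum - Multiset.card g.cycleType} (ℓ - 1)) ∧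
    (∃ c : ℝ, 0 < c ∧ ∃ X₀ : ℝ, ∀ X : ℝ, X₀ ≤ X →
      c * X ^ (1 / ((ℓ : ℝ) - 1)) ≤ (Set.ncard (Cnt K G X) : ℝ)) ∧
    ∀ ε : ℝ, 0 < ε → ∃ c : ℝ, 0 < c ∧ ∀ X : ℝ, 0 < X → (Cnt K G X).Finite ∧
      (Set.ncard (Cnt K G X) : ℝ) < c * X ^ (1 / ((ℓ : ℝ) - 1) + ε) := by
  obtain ⟨h3, h4⟩ := h1 ℓ (by simp)
  cases hG with
  | one _ _ _ hG =>
    have hfs : IsCLWr ℓ H P G := hG
    obtain ⟨f, hf⟩ := hfs
    exact ⟨Pool.Agent.U765.MN.t_IndL ℓ n H P G f h3 hf, weakL inpL K H P hL ℓ h3 h4 G hG⟩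
  | step _ _ m _ G₀ _ hT hG' =>
    obtain ⟨g1, g2, g3⟩ := tower_good K H P hL ls m G₀ hT
      (fun l hl => h1 l (by simp [hl])) h2
    have hne : Nonempty (Fin m) := ⟨⟨0, g3⟩⟩
    have hfs : IsCLWr ℓ G₀ (Fin m) G := hG'
    obtain ⟨f, hf⟩ := hfs
    exact ⟨Pool.Agent.U765.MN.t_IndL ℓ n G₀ (Fin m) G f h3 hf,
      weakL inpL K G₀ (Fin m) g1 ℓ h3 h4 G hG'⟩

end Pool.Agent.U737.MN
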