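import Pool.Agent.U737.MN.WeakLow
import Pool.Agent.U737.MN.All

/-!
# Weak Malle for `C_ℓ ≀ H` : permutation groups on `Fin n`
-/

set_option autoImplicit false
set_option linter.unusedSectionVars false

open NumberField Filter Topology

namespace Pool.Agent.U737.MN

open Pool.Agent.TH444.ML (dsc nrm nf_of_fd dsc_eq one_le_dsc HasGp Cnt)

/-- `G ≤ S_n` is, up to a bijection of `{1, ..., n}` with `P × ZMod ℓ`, the wreath product
`C_ℓ ≀ H` -/
def IsCLWr (ℓ : ℕ) (H P : Type) [Group H] [MulAction H P] {n : ℕ}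
    (G : Subgroup (Equiv.Perm (Fin n))) : Prop :=
  ∃ f : Fin n ≃ P × ZMod ℓ, ∀ π : Equiv.Perm (Fin n), π ∈ G ↔ ∃ (h : H) (c : P → ZMod ℓ), ∀ i,
    f (π i) = (h • (f i).1, c (f i).1 + (f i).2)

theorem clwr_n {ℓ : ℕ} {H P : Type} [Group H] [MulAction H P] [Finite P] {n : ℕ}
    {G : Subgroup (Equiv.Perm (Fin n))} (hG : IsCLWr ℓ H P G) : n = ℓ * Nat.card P := by
  obtain ⟨f, -⟩ := hG
  have := Nat.card_congr f
  rw [Nat.card_prod] at this
  simpa [mul_comm] using this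

theorem hasGp_iffL (K : Type) [Field K] {ℓ : ℕ} {H P : Type} [Group H] [MulAction H P] {n : ℕ}
    {G : Subgroup (Equiv.Perm (Fin n))} (hG : IsCLWr ℓ H P G)
    (L : IntermediateField K (AlgebraicClosure K)) :
    HasGp K G L ↔ IsWrL K (AlgebraicClosure K) ℓ H P L := by
  obtain ⟨f, hf⟩ := hG
  constructor
  · rintro ⟨e, he⟩
    refine ⟨e.trans f, fun π => ?_⟩
    have h1 := hf (f.trans (π.trans f.symm))
    have h2 := he (f.trans (π.trans f.symm))
    have h3 : π ∈ WrL ℓ H P ↔ f.trans (π.trans f.symm) ∈ G := by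
      rw [h1]
      constructor
      · rintro ⟨h, c, hh⟩
        exact ⟨h, c, fun i => by simpa using hh (f i).1 (f i).2⟩
      · rintro ⟨h, c, hh⟩
        refine ⟨h, c, fun x t => ?_⟩
        have := hh (f.symm (x, t))
        simpa using this
    rw [h3, h2]
    constructor
    · rintro ⟨σ, hσ⟩
      refine ⟨σ, fun φ => ?_⟩
      have := hσ φ
      simp only [Equiv.trans_apply] at this ⊢
      rw [this]
      simp
    · rintro ⟨σ, hσ⟩
      refine ⟨σ, fun φ => ?_⟩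
      have := hσ φ
      simp only [Equiv.trans_apply] at this ⊢
      rw [← this]
      simp
  · rintro ⟨e, he⟩
    refine ⟨e.trans f.symm, fun π => ?_⟩
    have h1 := hf π
    have h2 := he (f.symm.trans (π.trans f))
    have h3 : π ∈ G ↔ f.symm.trans (π.trans f) ∈ WrL ℓ H P := by
      rw [h1]
      constructor
      · rintro ⟨h, c, hh⟩
        refine ⟨h, c, fun x t => ?_⟩
        have := hh (f.symm (x, t))
        simpa using this
      · rintro ⟨h, c, hh⟩
        exact ⟨h, c, fun i => by simpa using hh (f i).1 (f i).2⟩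
    rw [h3, h2]
    constructor
    · rintro ⟨σ, hσ⟩
      refine ⟨σ, fun φ => ?_⟩
      have := hσ φ
      simp only [Equiv.trans_apply] at this ⊢
      rw [this]
      simp
    · rintro ⟨σ, hσ⟩
      refine ⟨σ, fun φ => ?_⟩
      have := hσ φ
      simp only [Equiv.trans_apply] at this ⊢
      rw [← this]
      simp

theorem cnt_eqL (K : Type) [Field K] [NumberField K] {ℓ : ℕ} (hl : 0 < ℓ) {H P : Type} [Group H]
    [MulAction H P] [Finite P] [Nonempty P] {n : ℕ}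
    {G : Subgroup (Equiv.Perm (Fin n))} (hG : IsCLWr ℓ H P G) (X : ℝ) :
    Cnt K G X = TL K (AlgebraicClosure K) ℓ H P (X * ((|discr K| : ℤ) : ℝ) ^ n) := by
  have hn := clwr_n hG
  ext L
  constructor
  · rintro ⟨h1, h2, h3, h4⟩
    refine ⟨by rw [h1, hn], (hasGp_iffL K hG L).1 h2, ?_⟩
    rw [dsc_eq L]
    exact h4
  · rintro ⟨h1, h2, h3⟩
    have hpos : 0 < Nat.card P := Nat.card_pos
    have hfd : FiniteDimensional K L := FiniteDimensional.of_finrank_pos (by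
      rw [h1]; positivity)
    have hnf : NumberField L := nf_of_fd L
    refine ⟨by rw [h1, hn], (hasGp_iffL K hG L).2 h2, hnf, ?_⟩
    rw [dsc_eq L] at h3
    exact h3

/-- the hypotheses on `(K, H, P)`: there are fields with group `H` on `P`, and those with
`|d| ≤ X` are `O(X ^ (1 / 2 + ε))` -/
def Good (K H P : Type) [Field K] [NumberField K] [Group H] [MulAction H P] : Prop :=
  (∀ s : ℝ, 1 / 2 < s → Summable (fun M : Gal K (AlgebraicClosure K) H P => (dsc M.1) ^ (-s))) ∧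
    (Gal K (AlgebraicClosure K) H P).Nonempty

theorem good_of_large (r' : Inp) (K : Type) [Field K] [NumberField K] (H P : Type) [Group H]
    [Finite H] [MulAction H P] [Finite P] [Nonempty P] [MulAction.IsPretransitive H P]
    [FaithfulSMul H P] (hL : LargeAct H P)
    (hne : (Pool.Agent.TH444.ML.Gal K (AlgebraicClosure K) H).Nonempty) : Good K H P := by
  refine ⟨fun s hs => ?_, r'.exist K (AlgebraicClosure K) H P hne⟩
  refine Summable.of_nonneg_of_le (fun M => Real.rpow_nonneg (by linarith [one_le_dsc M.1]) _)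
    (fun M => ?_) (summable_of_large r' K H P hL)
  exact Real.rpow_le_rpow_of_exponent_le (one_le_dsc M.1) (by linarith)

/-- the bounds of Malle's conjecture for `C_ℓ ≀ H` -/
theorem weakL (r : InpL) (K : Type) [Field K] [NumberField K] (H P : Type) [Group H]
    [Finite H] [MulAction H P] [Finite P] [Nonempty P] [MulAction.IsPretransitive H P]
    [FaithfulSMul H P] (hL : Good K H P) (ℓ : ℕ) (hl : ℓ.Prime)
    (hz : HasZ ℓ K) {n : ℕ} (G : Subgroup (Equiv.Perm (Fin n))) (hG : IsCLWr ℓ H P G) :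
    (∃ c : ℝ, 0 < c ∧ ∃ X₀ : ℝ, ∀ X : ℝ, X₀ ≤ X →
      c * X ^ (1 / ((ℓ : ℝ) - 1)) ≤ (Set.ncard (Cnt K G X) : ℝ)) ∧
    ∀ ε : ℝ, 0 < ε → ∃ c : ℝ, 0 < c ∧ ∀ X : ℝ, 0 < X → (Cnt K G X).Finite ∧
      (Set.ncard (Cnt K G X) : ℝ) < c * X ^ (1 / ((ℓ : ℝ) - 1) + ε) := by
  set d : ℝ := ((|discr K| : ℤ) : ℝ) ^ n with hd
  have hd0 : 0 < d := by
    have : (0 : ℤ) < |discr K| := abs_pos.2 (discr_ne_zero K)
    have : (0 : ℝ) < ((|discr K| : ℤ) : ℝ) := by exact_mod_cast this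
    positivity
  have hl2 : (2 : ℝ) ≤ ℓ := by exact_mod_cast hl.two_le
  have hl1 : (0 : ℝ) < (ℓ : ℝ) - 1 := by linarith
  have hsum := hL.1
  have hGal := hL.2
  have hup := upperL r (K := K) (Ω := AlgebraicClosure K) (H := H) (P := P) hl hz hsum
  refine ⟨?_, ?_⟩
  · obtain ⟨c, hc0, Z₀, hc⟩ := lowerL r (K := K) (Ω := AlgebraicClosure K) (H := H) (P := P)
      hl hz hGal
    obtain ⟨C, -, hC⟩ := hup 1 one_pos
    refine ⟨c * d ^ (1 / ((ℓ : ℝ) - 1)), by positivity, max 1 (Z₀ / d), fun X hX => ?_⟩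
    have hX1 : 1 ≤ X := (le_max_left _ _).trans hX
    have hX0 : 0 < X := by linarith
    have hX2 : Z₀ ≤ X * d := by
      have := (le_max_right 1 (Z₀ / d)).trans hX
      rwa [div_le_iff₀ hd0] at this
    rw [cnt_eqL K hl.pos hG]
    have h1 := hc (X * d) hX2 (hC (X * d) (by positivity)).1
    rw [Real.mul_rpow hX0.le hd0.le] at h1
    calc c * d ^ (1 / ((ℓ : ℝ) - 1)) * X ^ (1 / ((ℓ : ℝ) - 1))
        = c * (X ^ (1 / ((ℓ : ℝ) - 1)) * d ^ (1 / ((ℓ : ℝ) - 1))) := by ring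
      _ ≤ _ := h1
  · intro ε hε
    obtain ⟨C, hC0, hC⟩ := hup ε hε
    refine ⟨C * d ^ (1 / ((ℓ : ℝ) - 1) + ε) + 1, by positivity, fun X hX => ?_⟩
    rw [cnt_eqL K hl.pos hG]
    obtain ⟨h1, h2⟩ := hC (X * d) (by positivity)
    refine ⟨h1, ?_⟩
    rw [Real.mul_rpow hX.le hd0.le] at h2
    have h3 : 0 < X ^ (1 / ((ℓ : ℝ) - 1) + ε) := by positivity
    calc ((TL K (AlgebraicClosure K) ℓ H P (X * d)).ncard : ℝ)
        ≤ C * (X ^ (1 / ((ℓ : ℝ) - 1) + ε) * d ^ (1 / ((ℓ : ℝ) - 1) + ε)) := h2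
      _ < C * (X ^ (1 / ((ℓ : ℝ) - 1) + ε) * d ^ (1 / ((ℓ : ℝ) - 1) + ε)) +
          X ^ (1 / ((ℓ : ℝ) - 1) + ε) := by linarith
      _ = _ := by ring

end Pool.Agent.U737.MN
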