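import Pool.Agent.U278.MN.KumUnif

/-!
# Uniform bound for Kummer extensions of degree `ℓ`, exponent `1 / 2 + η` of the discriminant

The proof is that of `Pool.Agent.U278.MN.t_KumUnif` (owner helper278) with a better bound for the class
number.
-/

set_option autoImplicit false

open NumberField Filter Topology UniqueFactorizationMonoid

namespace Pool.Agent.U737.MN

open Pool.Agent.U278.MN
open Pool.Agent.TH444.ML (dsc nrm)

/-- uniform upper bound for Kummer extensions of degree `ℓ` -/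
def KumUnif2 : Prop :=
  ∀ (ℓ D : ℕ) (η ε : ℝ), ℓ.Prime → 0 < η → 0 < ε → ∃ C : ℝ, 0 ≤ C ∧
    ∀ (K Ω : Type) [Field K] [NumberField K] [Field Ω] [Algebra K Ω] [IsAlgClosure K Ω]
      (M : IntermediateField K Ω) [FiniteDimensional K M], HasZ ℓ K → Module.finrank ℚ M = D →
      ∀ Y : ℝ, 0 ≤ Y → (KS ℓ M Y).Finite ∧
        ((KS ℓ M Y).ncard : ℝ) ≤ C * dsc M ^ (1 / 2 + η) * Y ^ (1 / ((ℓ : ℝ) - 1) + ε)

/-- KumUnif2 -/
theorem t_KumUnif2 : (DiscLow → TupUnif → KumUnif2) := by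
  classical
  intro hDL hTU ℓ D η ε hℓ hη hε
  have hℓ2 := hℓ.two_le
  have hℓ0 : ℓ ≠ 0 := hℓ.ne_zero
  have hNZ : NeZero ℓ := ⟨hℓ0⟩
  have hℓ2R : (2 : ℝ) ≤ ℓ := by exact_mod_cast hℓ2
  obtain ⟨q, hq⟩ : ∃ q : ℝ, q = (ℓ : ℝ) - 1 := ⟨_, rfl⟩
  have hq0 : 0 < q := by rw [hq]; linarith
  have hqn : ((ℓ - 1 : ℕ) : ℝ) = q := by
    rw [hq, Nat.cast_sub (by omega), Nat.cast_one]
  obtain ⟨CT, hCT⟩ := hTU D (ℓ - 1) (ε * q) (by positivity)
  obtain ⟨CI, hCI⟩ := hTU D 1 (2 * η) (by positivity)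
  refine ⟨|CI| * (2 ^ D) ^ (1 + 2 * η) * (|CT| * ℓ ^ D), by positivity, ?_⟩
  intro K Ω _ _ _ _ _ M _ hz hD Y hY
  rw [← hq]
  have hNM : NumberField M := NumberField.of_module_finite K M
  obtain ⟨d, hd⟩ : ∃ d : ℝ, d = dsc M := ⟨_, rfl⟩
  have hdM : d = ((|discr M| : ℤ) : ℝ) := by
    rw [hd]
    unfold Pool.Agent.TH444.ML.dsc
    rw [dif_pos hNM]
  have hd1 : 1 ≤ d := by
    rw [hdM]
    exact Pool.Agent.TH293.J3093.disc_pos M
  have hd0 : 0 ≤ d := by linarith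
  rw [← hd]
  rcases Set.eq_empty_or_nonempty (KS ℓ M Y) with hemp | ⟨L0, hL0⟩
  · rw [hemp]
    refine ⟨Set.finite_empty, ?_⟩
    rw [Set.ncard_empty, Nat.cast_zero]
    positivity
  obtain ⟨rep, hrep, hrep0, hinj, hrepN⟩ := Pool.Agent.TH293.J3093.exists_rep M
  rw [hD, ← hdM] at hrepN
  obtain ⟨par, hpar⟩ := exists_par M ℓ
  obtain ⟨w, hw⟩ := Pool.Agent.TH293.J3093.exists_gen M
  have hdat := dat M hDL hℓ hz rep hrep Y
  have hY1 : 1 ≤ Y := by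
    obtain ⟨C, f, α, s, -, -, -, -, -, h, -⟩ := hdat L0 hL0
    exact h
  choose! cl f al s h1 h2 h3 h4 h5 h6 h7 using hdat
  obtain ⟨T, hT⟩ : ∃ T : ℝ, T = Y ^ (1 / q) := ⟨_, rfl⟩
  have hT1 : 1 ≤ T := by
    rw [hT]
    exact Real.one_le_rpow hY1 (by positivity)
  obtain ⟨hfinT, hcardT⟩ := hCT M hD T hT1
  obtain ⟨TS, hTS⟩ : ∃ TS : Set (Fin (ℓ - 1) → Ideal (𝓞 M)), TS =
    {f : Fin (ℓ - 1) → Ideal (𝓞 M) | (∀ i, f i ≠ ⊥) ∧
      (Ideal.absNorm (∏ i, f i) : ℝ) ≤ T} := ⟨_, rfl⟩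
  rw [← hTS] at hfinT hcardT
  have hmem : ∀ L ∈ KS ℓ M Y, f L ∈ TS := by
    intro L hL
    rw [hTS]
    refine ⟨h5 L hL, ?_⟩
    have h8 := h7 L hL
    have h9 : (0 : ℝ) ≤ (Ideal.absNorm (∏ i, f L i) : ℝ) := Nat.cast_nonneg _
    calc (Ideal.absNorm (∏ i, f L i) : ℝ) =
        ((Ideal.absNorm (∏ i, f L i) : ℝ) ^ (ℓ - 1)) ^ (1 / q) := by
          rw [← Real.rpow_natCast, ← Real.rpow_mul h9, hqn, mul_one_div_cancel hq0.ne',
            Real.rpow_one]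
      _ ≤ T := by
          rw [hT]
          exact Real.rpow_le_rpow (by positivity) h8 (by positivity)
  -- the class number
  obtain ⟨δ, hδ⟩ : ∃ δ : ℝ, δ = d ^ (1 / 2 : ℝ) := ⟨_, rfl⟩
  rw [← hδ] at hrepN
  have hδ1 : 1 ≤ δ := by
    rw [hδ]
    exact Real.one_le_rpow hd1 (by norm_num)
  have hcl : (Fintype.card (ClassGroup (𝓞 M)) : ℝ) ≤ |CI| * (2 ^ D * δ) ^ (1 + 2 * η) := by
    have hZ : (1 : ℝ) ≤ 2 ^ D * δ := by
      have : (1 : ℝ) ≤ 2 ^ D := one_le_pow₀ (by norm_num)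
      nlinarith
    obtain ⟨hIfin, hIcard⟩ := hCI M hD _ hZ
    have hIcard' := hIcard.trans (mul_le_mul_of_nonneg_right (le_abs_self CI)
      (Real.rpow_nonneg (by linarith) _))
    refine le_trans ?_ hIcard'
    rw [← Nat.card_eq_fintype_card, ← Set.ncard_univ]
    have h8 : (Set.univ : Set (ClassGroup (𝓞 M))).ncard ≤
        {f : Fin 1 → Ideal (𝓞 M) | (∀ i, f i ≠ ⊥) ∧
          (Ideal.absNorm (∏ i, f i) : ℝ) ≤ 2 ^ D * δ}.ncard :=
      Set.ncard_le_ncard_of_injOn (fun C _ => rep C)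
        (fun C _ => ⟨fun _ => hrep0 C, by simpa using hrepN C⟩)
        (fun C _ C' _ h => hinj (congrFun h 0)) hIfin
    exact_mod_cast h8
  -- the map
  let W := ZMod ℓ × (Fin (Units.rank M) → ZMod ℓ)
  let Φ : IntermediateField K Ω → ClassGroup (𝓞 M) × (Fin (ℓ - 1) → Ideal (𝓞 M)) × W :=
    fun L => (cl L, f L, par (w (al L)))
  obtain ⟨S, hS⟩ : ∃ S : Set (ClassGroup (𝓞 M) × (Fin (ℓ - 1) → Ideal (𝓞 M)) × W),
    S = Set.univ ×ˢ (TS ×ˢ Set.univ) := ⟨_, rfl⟩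
  have hSfin : S.Finite := by
    rw [hS]
    exact Set.finite_univ.prod (hfinT.prod Set.finite_univ)
  have hmaps : ∀ L ∈ KS ℓ M Y, Φ L ∈ S := by
    intro L hL
    rw [hS]
    exact ⟨Set.mem_univ _, hmem L hL, Set.mem_univ _⟩
  have hinjΦ : Set.InjOn Φ (KS ℓ M Y) := by
    intro L hL L' hL' hΦ
    have e0 : cl L = cl L' := (Prod.ext_iff.1 hΦ).1
    have e00 : f L = f L' := (Prod.ext_iff.1 (Prod.ext_iff.1 hΦ).2).1
    have e2 : par (w (al L)) = par (w (al L')) := (Prod.ext_iff.1 (Prod.ext_iff.1 hΦ).2).2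
    have e1 : Ideal.span {al L} = Ideal.span {al L'} := by
      rw [h4 L hL, h4 L' hL', e0, e00]
    obtain ⟨v, hv⟩ := hpar _ _ e2
    have e3 := hw _ _ e1
    rw [hv] at e3
    push_cast at e3
    have e4 : al L' = (v : 𝓞 M) ^ ℓ * al L := by
      have hwu : ((w (al L) : (𝓞 M)ˣ) : 𝓞 M) ≠ 0 := Units.ne_zero _
      apply mul_right_cancel₀ hwu
      rw [e3]
      ring
    have hv0 : ((v : 𝓞 M) : M) ≠ 0 := by
      have : (v : 𝓞 M) ≠ 0 := Units.ne_zero v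
      exact fun h => this (RingOfIntegers.ext h)
    have hv0' : (((v : 𝓞 M) : M) : Ω) ≠ 0 := fun h => hv0 (Subtype.ext h)
    have hs0 : s L ≠ 0 := fun h0 => (h3 L hL).2.1 (h0 ▸ zero_mem M)
    have e5 : (s L') ^ ℓ = (((v : 𝓞 M) : M) : Ω) ^ ℓ * (s L) ^ ℓ := by
      rw [h2 L hL, h2 L' hL', e4]
      push_cast
      rfl
    rw [(h3 L hL).2.2, (h3 L' hL').2.2]
    exact (same M hℓ0 hz (SetLike.coe_mem _) hv0' hs0 e5).symm
  have hfin : (KS ℓ M Y).Finite := by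
    refine Set.Finite.of_finite_image (f := Φ) (hSfin.subset ?_) hinjΦ
    rintro _ ⟨L, hL, rfl⟩
    exact hmaps L hL
  refine ⟨hfin, ?_⟩
  have hcard : (KS ℓ M Y).ncard ≤ S.ncard :=
    Set.ncard_le_ncard_of_injOn Φ hmaps hinjΦ hSfin
  have hSc : S.ncard ≤ Fintype.card (ClassGroup (𝓞 M)) * (TS.ncard * ℓ ^ D) := by
    rw [hS, Set.ncard_prod, Set.ncard_prod, Set.ncard_univ, Set.ncard_univ,
      Nat.card_eq_fintype_card, Nat.card_eq_fintype_card]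
    refine Nat.mul_le_mul_left _ (Nat.mul_le_mul_left _ ?_)
    have := card_par M ℓ
    rwa [hD] at this
  have hcR : ((KS ℓ M Y).ncard : ℝ) ≤
      (Fintype.card (ClassGroup (𝓞 M)) : ℝ) * ((TS.ncard : ℝ) * (ℓ : ℝ) ^ D) := by
    exact_mod_cast hcard.trans hSc
  have hT0 : 0 ≤ T := by linarith
  have hTSc : (TS.ncard : ℝ) ≤ |CT| * Y ^ (1 / q + ε) := by
    refine hcardT.trans ?_
    have e1 : T ^ (1 + ε * q) = Y ^ (1 / q + ε) := by
      rw [hT, ← Real.rpow_mul hY]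
      congr 1
      field_simp
    rw [e1]
    exact mul_le_mul_of_nonneg_right (le_abs_self CT) (Real.rpow_nonneg hY _)
  have hδd : δ ^ (1 + 2 * η) ≤ d ^ (1 / 2 + η) := by
    rw [hδ, ← Real.rpow_mul hd0]
    exact Real.rpow_le_rpow_of_exponent_le hd1 (by linarith)
  calc ((KS ℓ M Y).ncard : ℝ) ≤ _ := hcR
    _ ≤ (|CI| * (2 ^ D * δ) ^ (1 + 2 * η)) * ((|CT| * Y ^ (1 / q + ε)) * (ℓ : ℝ) ^ D) := by
        gcongr
    _ = (|CI| * (2 ^ D) ^ (1 + 2 * η) * (|CT| * ℓ ^ D)) * δ ^ (1 + 2 * η) *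
          Y ^ (1 / q + ε) := by
        rw [Real.mul_rpow (by positivity) (by linarith)]
        ring
    _ ≤ (|CI| * (2 ^ D) ^ (1 + 2 * η) * (|CT| * ℓ ^ D)) * d ^ (1 / 2 + η) *
          Y ^ (1 / q + ε) := by
        gcongr

end Pool.Agent.U737.MN
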