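import Pool.Agent.U737.MN.Stm

/-!
# Third part of project MN: weak Malle for `C_ℓ ≀ H`, `ℓ` prime, over number fields containing `ζ_ℓ`
-/

set_option autoImplicit false

open NumberField Filter Topology UniqueFactorizationMonoid

namespace Pool.Agent.U737.MN

open Pool.Agent.TH444.ML (dsc nrm)

/-- the wreath product `C_ℓ ≀ H` acting on `X × ZMod ℓ` -/
def WrL (ℓ : ℕ) (H X : Type) [Group H] [MulAction H X] : Set (Equiv.Perm (X × ZMod ℓ)) :=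
  {π | ∃ (h : H) (c : X → ZMod ℓ), ∀ (x : X) (t : ZMod ℓ), π (x, t) = (h • x, c x + t)}

/-- `L/K` has Galois group `C_ℓ ≀ H` (as a permutation group on the embeddings) -/
def IsWrL (K Ω : Type) [Field K] [Field Ω] [Algebra K Ω] (ℓ : ℕ) (H X : Type) [Group H]
    [MulAction H X] (L : IntermediateField K Ω) : Prop :=
  ∃ e : (L →ₐ[K] Ω) ≃ X × ZMod ℓ, ∀ π : Equiv.Perm (X × ZMod ℓ), π ∈ WrL ℓ H X ↔
    ∃ σ : Ω ≃ₐ[K] Ω, ∀ φ : L →ₐ[K] Ω, e (σ.toAlgHom.comp φ) = π (e φ)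

/-- `K` contains a primitive `ℓ`-th root of unity -/
def HasZ (ℓ : ℕ) (K : Type) [Field K] : Prop := ∃ ζ : K, IsPrimitiveRoot ζ ℓ

/-- `L = M(s)`, `s ^ ℓ ∈ M`, `s ∉ M` -/
def Kum {K Ω : Type} [Field K] [Field Ω] [Algebra K Ω] (ℓ : ℕ) (M L : IntermediateField K Ω)
    (s : Ω) : Prop :=
  s ^ ℓ ∈ M ∧ s ∉ M ∧ L = M ⊔ IntermediateField.adjoin K {s}

/-- degree -/
def DegL : Prop :=
  ∀ (ℓ : ℕ) (K Ω : Type) [Field K] [NumberField K] [Field Ω] [Algebra K Ω] [IsAlgClosure K Ω]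
    (M L : IntermediateField K Ω) [FiniteDimensional K M] (s : Ω), ℓ.Prime → HasZ ℓ K →
    Kum ℓ M L s → FiniteDimensional K L ∧ Module.finrank K L = ℓ * Module.finrank K M

/-- backward: Kummer extensions with full normal closure have group `C_ℓ ≀ H` -/
def BackL : Prop :=
  ∀ (ℓ : ℕ) (K Ω : Type) [Field K] [NumberField K] [Field Ω] [Algebra K Ω] [IsAlgClosure K Ω]
    (H X : Type) [Group H] [Finite H] [MulAction H X] [Finite X] [Nonempty X]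
    [MulAction.IsPretransitive H X] [FaithfulSMul H X] (M L : IntermediateField K Ω) (s : Ω),
    ℓ.Prime → HasZ ℓ K → M ∈ Gal K Ω H X → Kum ℓ M L s →
    nc L = ℓ ^ Module.finrank K M * nc M → IsWrL K Ω ℓ H X L

/-- forward: extensions with group `C_ℓ ≀ H` are Kummer extensions -/
def ForwL : Prop :=
  ∀ (ℓ : ℕ) (K Ω : Type) [Field K] [NumberField K] [Field Ω] [Algebra K Ω] [IsAlgClosure K Ω]
    (H X : Type) [Group H] [Finite H] [MulAction H X] [Finite X] [Nonempty X]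
    [MulAction.IsPretransitive H X] [FaithfulSMul H X] (L : IntermediateField K Ω),
    ℓ.Prime → HasZ ℓ K → Module.finrank K L = ℓ * Nat.card X → IsWrL K Ω ℓ H X L →
    ∃ (M : IntermediateField K Ω) (s : Ω), M ∈ Gal K Ω H X ∧ Kum ℓ M L s

/-- Kummer theory: if the normal closure of `M(α^(1/ℓ))` over `K` is smaller than expected, a product
of powers of conjugates of `α` is an `ℓ`-th power in the normal closure of `M` -/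
def NotFullL : Prop :=
  ∀ (ℓ : ℕ) (K Ω : Type) [Field K] [NumberField K] [Field Ω] [Algebra K Ω] [IsAlgClosure K Ω]
    (M L : IntermediateField K Ω) [FiniteDimensional K M] (α : M) (s : Ω), ℓ.Prime → HasZ ℓ K →
    α ≠ 0 → s ^ ℓ = (α : Ω) → Kum ℓ M L s → nc L ≠ ℓ ^ Module.finrank K M * nc M →
    ∃ (S : Finset (M →ₐ[K] IntermediateField.normalClosure K M Ω))
      (a : (M →ₐ[K] IntermediateField.normalClosure K M Ω) → ℕ), S.Nonempty ∧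
      (∀ φ ∈ S, ¬ ℓ ∣ a φ) ∧
      ∃ y : IntermediateField.normalClosure K M Ω, y ^ ℓ = ∏ φ ∈ S, (φ α) ^ (a φ)

/-- `P` is the only prime above `p` containing `α`, and `α ∉ P ^ 2` -/
def Pat (K M : Type) [Field K] [Field M] [Algebra K M] (p : Ideal (𝓞 K)) (P : Ideal (𝓞 M))
    (α : 𝓞 M) : Prop :=
  P ∈ p.primesOver (𝓞 M) ∧ α ∈ P ∧ α ∉ P ^ 2 ∧
    ∀ P' : Ideal (𝓞 M), P' ∈ p.primesOver (𝓞 M) → P' ≠ P → α ∉ P'

/-- the pattern excludes `ℓ`-th powers -/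
def NotPow : Prop :=
  ∀ (ℓ : ℕ) (K M N : Type) [Field K] [NumberField K] [Field M] [NumberField M] [Field N]
    [NumberField N] [Algebra K M] [Algebra K N] [Algebra M N] [IsScalarTower K M N] [IsGalois K N]
    (p : Ideal (𝓞 K)) (P : Ideal (𝓞 M)) (α : 𝓞 M) (S : Finset (M →ₐ[K] N))
    (a : (M →ₐ[K] N) → ℕ), ℓ.Prime → p ∈ spl K N → Pat K M p P α → S.Nonempty →
    (∀ φ ∈ S, ¬ ℓ ∣ a φ) → ¬ ∃ y : N, y ^ ℓ = ∏ φ ∈ S, (φ (α : M)) ^ (a φ)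

/-- upper bound for the discriminant of `M(α^(1/ℓ))` -/
def DiscUp : Prop :=
  ∀ (ℓ : ℕ) (K Ω : Type) [Field K] [NumberField K] [Field Ω] [Algebra K Ω] [IsAlgClosure K Ω]
    (M L : IntermediateField K Ω) [FiniteDimensional K M] [NumberField M] (α : 𝓞 M) (s : Ω),
    ℓ.Prime → HasZ ℓ K → α ≠ 0 → s ^ ℓ = ((α : M) : Ω) → Kum ℓ M L s →
    dsc L ≤ dsc M ^ ℓ * ((ℓ : ℝ) ^ (ℓ * Module.finrank ℚ M) * nrm α ^ (ℓ - 1))

/-- lower bound for the discriminant of `M(α^(1/ℓ))` -/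
def DiscLow : Prop :=
  ∀ (ℓ : ℕ) (K Ω : Type) [Field K] [NumberField K] [Field Ω] [Algebra K Ω] [IsAlgClosure K Ω]
    (M L : IntermediateField K Ω) [FiniteDimensional K M] [NumberField M] (α : 𝓞 M) (s : Ω)
    (𝔯 𝔠 : Ideal (𝓞 M)) (W : Finset (Ideal (𝓞 M))),
    ℓ.Prime → HasZ ℓ K → α ≠ 0 → s ^ ℓ = ((α : M) : Ω) → Kum ℓ M L s →
    Ideal.span {α} = 𝔯 * 𝔠 ^ ℓ → (∀ P ∈ W, P.IsPrime ∧ P ∣ 𝔯 ∧ ¬ P ^ ℓ ∣ 𝔯) →
    dsc M ^ ℓ * ((∏ P ∈ W, (Ideal.absNorm P : ℝ)) ^ (ℓ - 1)) ≤ dsc L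

/-- tuples of ideals with a product of bounded norm -/
def TupUnif : Prop :=
  ∀ (D k : ℕ) (ε : ℝ), 0 < ε → ∃ C : ℝ, ∀ (M : Type) [Field M] [NumberField M],
    Module.finrank ℚ M = D → ∀ T : ℝ, 1 ≤ T →
      {f : Fin k → Ideal (𝓞 M) | (∀ i, f i ≠ ⊥) ∧ (Ideal.absNorm (∏ i, f i) : ℝ) ≤ T}.Finite ∧
      (Set.ncard {f : Fin k → Ideal (𝓞 M) | (∀ i, f i ≠ ⊥) ∧
        (Ideal.absNorm (∏ i, f i) : ℝ) ≤ T} : ℝ) ≤ C * T ^ (1 + ε)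

/-- the Kummer extensions of degree `ℓ` of `M` with `|d_L| ≤ Y |d_M| ^ ℓ` -/
def KS {K Ω : Type} [Field K] [Field Ω] [Algebra K Ω] (ℓ : ℕ) (M : IntermediateField K Ω) (Y : ℝ) :
    Set (IntermediateField K Ω) :=
  {L | (∃ s : Ω, Kum ℓ M L s) ∧ dsc L ≤ Y * dsc M ^ ℓ}

/-- uniform upper bound for Kummer extensions of degree `ℓ` -/
def KumUnif : Prop :=
  ∀ (ℓ D : ℕ) (ε : ℝ), ℓ.Prime → 0 < ε → ∃ C : ℝ, 0 ≤ C ∧
    ∀ (K Ω : Type) [Field K] [NumberField K] [Field Ω] [Algebra K Ω] [IsAlgClosure K Ω]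
      (M : IntermediateField K Ω) [FiniteDimensional K M], HasZ ℓ K → Module.finrank ℚ M = D →
      ∀ Y : ℝ, 0 ≤ Y → (KS ℓ M Y).Finite ∧
        ((KS ℓ M Y).ncard : ℝ) ≤ C * dsc M ^ (3 / 4 : ℝ) * Y ^ (1 / ((ℓ : ℝ) - 1) + ε)

/-- many elements with a given pattern at the primes of `T` -/
def Many : Prop :=
  ∀ (M : Type) [Field M] [NumberField M] (T : Finset (Ideal (𝓞 M))) (P : Ideal (𝓞 M)),
    (∀ Q ∈ T, Q.IsPrime ∧ Q ≠ ⊥) → P ∈ T → ∃ c : ℝ, 0 < c ∧ ∃ Y₀ : ℝ, ∀ Y : ℝ, Y₀ ≤ Y →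
      ∃ (𝔣 : Ideal (𝓞 M)) (A : Finset (𝓞 M)), 𝔣 ≠ ⊥ ∧ c * Y ≤ A.card ∧
        (∀ α ∈ A, α ≠ 0 ∧ nrm α ≤ Y ∧ α ∈ P ∧ α ∉ P ^ 2 ∧ (∀ Q ∈ T, Q ≠ P → α ∉ Q) ∧
          ∃ 𝔟 : Ideal (𝓞 M), Squarefree 𝔟 ∧ IsCoprime 𝔟 𝔣 ∧ Ideal.span {α} = 𝔣 * 𝔟) ∧
        ∀ α ∈ A, ∀ β ∈ A, Ideal.span {α} = Ideal.span {β} → α = β

/-- different squarefree parts give different fields -/
def InjL : Prop :=
  ∀ (ℓ : ℕ) (K Ω : Type) [Field K] [NumberField K] [Field Ω] [Algebra K Ω] [IsAlgClosure K Ω]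
    (M L : IntermediateField K Ω) [FiniteDimensional K M] [NumberField M] (α β : 𝓞 M) (s t : Ω)
    (𝔣 𝔟 𝔟' : Ideal (𝓞 M)),
    ℓ.Prime → HasZ ℓ K → α ≠ 0 → β ≠ 0 → s ^ ℓ = ((α : M) : Ω) → t ^ ℓ = ((β : M) : Ω) →
    Kum ℓ M L s → Kum ℓ M L t → 𝔣 ≠ ⊥ → Squarefree 𝔟 → Squarefree 𝔟' → IsCoprime 𝔟 𝔣 →
    IsCoprime 𝔟' 𝔣 → Ideal.span {α} = 𝔣 * 𝔟 → Ideal.span {β} = 𝔣 * 𝔟' →
    Ideal.span {α} = Ideal.span {β}

/-- the least index of the elements of `C_ℓ ≀ H` -/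
def IndL : Prop :=
  ∀ (ℓ n : ℕ) (H X : Type) [Group H] [MulAction H X] [Nonempty X]
    (G : Subgroup (Equiv.Perm (Fin n))) (f : Fin n ≃ X × ZMod ℓ), ℓ.Prime →
    (∀ π : Equiv.Perm (Fin n), π ∈ G ↔ ∃ (h : H) (c : X → ZMod ℓ), ∀ i,
      f (π i) = (h • (f i).1, c (f i).1 + (f i).2)) →
    IsLeast {j : ℕ | ∃ g ∈ G, g ≠ 1 ∧ j = g.cycleType.sum - Multiset.card g.cycleType} (ℓ - 1)

end Pool.Agent.U737.MN
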