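import Pool.Agent.U737.MN.FinL

/-!
# Weak Malle for iterated wreath products `C_ℓ ≀ ... ≀ C_ℓ' ≀ H`
-/

set_option autoImplicit false
set_option linter.unusedSectionVars false

open NumberField Filter Topology

namespace Pool.Agent.U737.MN

open Pool.Agent.TH444.ML (dsc nrm nf_of_fd dsc_eq one_le_dsc HasGp Cnt)

/-- summability from an upper bound for the counting function -/
theorem summable_of_count {ι : Type} (d : ι → ℝ) (hd : ∀ i, 1 ≤ d i) (C b s : ℝ) (hC : 0 ≤ C)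
    (hb : 0 ≤ b) (hbs : b < s)
    (hc : ∀ Z : ℝ, 0 < Z → {i | d i ≤ Z}.Finite ∧ (Set.ncard {i | d i ≤ Z} : ℝ) ≤ C * Z ^ b) :
    Summable (fun i => d i ^ (-s)) := by
  classical
  set q : ℝ := (2 : ℝ) ^ (b - s) with hq
  have hq0 : 0 < q := by positivity
  have hq1 : q < 1 := by
    rw [hq]
    exact Real.rpow_lt_one_of_one_lt_of_neg (by norm_num) (by linarith)
  have hgeo : Summable (fun k : ℕ => q ^ k) := summable_geometric_of_lt_one hq0.le hq1
  let k : ι → ℕ := fun i => Nat.log 2 ⌊d i⌋₊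
  have hk1 : ∀ i, (2 : ℝ) ^ (k i) ≤ d i := by
    intro i
    have h1 : ⌊d i⌋₊ ≠ 0 := by
      have := hd i
      rw [Nat.ne_zero_iff_zero_lt, Nat.floor_pos]
      exact this
    have h2 : (2 : ℕ) ^ (k i) ≤ ⌊d i⌋₊ := Nat.pow_log_le_self 2 h1
    have h3 : ((2 ^ (k i) : ℕ) : ℝ) ≤ d i :=
      (Nat.cast_le.2 h2).trans (Nat.floor_le (by linarith [hd i]))
    exact_mod_cast h3
  have hk2 : ∀ i, d i ≤ (2 : ℝ) ^ (k i + 1) := by
    intro i
    have h2 : ⌊d i⌋₊ < (2 : ℕ) ^ (k i + 1) := Nat.lt_pow_succ_log_self (by norm_num) _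
    have h3 : d i < ((2 ^ (k i + 1) : ℕ) : ℝ) := Nat.lt_of_floor_lt h2
    exact_mod_cast h3.le
  refine summable_of_sum_le (c := C * 2 ^ b * ∑' j : ℕ, q ^ j)
    (fun i => Real.rpow_nonneg (by linarith [hd i]) _) (fun F => ?_)
  have hmaps : ∀ i ∈ F, k i ∈ F.image k := fun i hi => Finset.mem_image_of_mem k hi
  rw [← Finset.sum_fiberwise_of_maps_to hmaps]
  have hin : ∀ j ∈ F.image k, ∑ i ∈ F with k i = j, d i ^ (-s) ≤ C * 2 ^ b * q ^ j := by
    intro j _
    have h1 : ∀ i ∈ F.filter (fun i => k i = j), d i ^ (-s) ≤ ((2 : ℝ) ^ j) ^ (-s) := by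
      intro i hi
      rw [Finset.mem_filter] at hi
      rw [← hi.2]
      exact Real.rpow_le_rpow_of_nonpos (by positivity) (hk1 i) (by linarith)
    have h2 : ((F.filter (fun i => k i = j)).card : ℝ) ≤ C * ((2 : ℝ) ^ (j + 1)) ^ b := by
      obtain ⟨h3, h4⟩ := hc ((2 : ℝ) ^ (j + 1)) (by positivity)
      refine le_trans ?_ h4
      have h5 : ((F.filter (fun i => k i = j) : Finset ι) : Set ι) ⊆
          {i | d i ≤ (2 : ℝ) ^ (j + 1)} := by
        intro i hi
        rw [Finset.mem_coe, Finset.mem_filter] at hi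
        have := hk2 i
        rw [hi.2] at this
        exact this
      have h6 := Set.ncard_le_ncard h5 h3
      rw [Set.ncard_coe_finset] at h6
      exact_mod_cast h6
    calc ∑ i ∈ F with k i = j, d i ^ (-s) ≤ ∑ i ∈ F with k i = j, ((2 : ℝ) ^ j) ^ (-s) :=
          Finset.sum_le_sum h1
      _ = ((F.filter (fun i => k i = j)).card : ℝ) * ((2 : ℝ) ^ j) ^ (-s) := by
          rw [Finset.sum_const, nsmul_eq_mul]
      _ ≤ C * ((2 : ℝ) ^ (j + 1)) ^ b * ((2 : ℝ) ^ j) ^ (-s) :=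
          mul_le_mul_of_nonneg_right h2 (by positivity)
      _ = C * 2 ^ b * q ^ j := by
          have e1 : ((2 : ℝ) ^ (j + 1)) ^ b = 2 ^ b * ((2 : ℝ) ^ j) ^ b := by
            rw [pow_succ, Real.mul_rpow (by positivity) (by norm_num)]
            ring
          have e2 : q ^ j = ((2 : ℝ) ^ j) ^ b * ((2 : ℝ) ^ j) ^ (-s) := by
            rw [← Real.rpow_add (by positivity), hq, ← Real.rpow_natCast,
              ← Real.rpow_natCast, ← Real.rpow_mul (by norm_num), ← Real.rpow_mul (by norm_num)]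
            congr 1
            ring
          rw [e1, e2]
          ring
  calc ∑ j ∈ F.image k, ∑ i ∈ F with k i = j, d i ^ (-s)
      ≤ ∑ j ∈ F.image k, C * 2 ^ b * q ^ j := Finset.sum_le_sum hin
    _ = C * 2 ^ b * ∑ j ∈ F.image k, q ^ j := by rw [Finset.mul_sum]
    _ ≤ C * 2 ^ b * ∑' j : ℕ, q ^ j := by
        apply mul_le_mul_of_nonneg_left _ (by positivity)
        exact hgeo.sum_le_tsum _ (fun j _ => by positivity)

theorem gal_fin (K : Type) [Field K] {n : ℕ} (G : Subgroup (Equiv.Perm (Fin n)))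
    (L : IntermediateField K (AlgebraicClosure K)) :
    L ∈ Gal K (AlgebraicClosure K) G (Fin n) ↔ FiniteDimensional K L ∧ HasGp K G L := by
  have key : ∀ π : Equiv.Perm (Fin n), (∃ h : G, ∀ x, π x = h • x) ↔ π ∈ G := by
    intro π
    constructor
    · rintro ⟨h, hh⟩
      have : π = h.1 := Equiv.ext hh
      rw [this]
      exact h.2
    · intro h
      exact ⟨⟨π, h⟩, fun x => rfl⟩
  constructor
  · rintro ⟨h1, e, he⟩
    refine ⟨h1, e, fun π => ?_⟩
    rw [← he π, key]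
  · rintro ⟨h1, e, he⟩
    refine ⟨h1, e, fun π => ?_⟩
    rw [← he π, key]

theorem trans_of {ℓ : ℕ} {H P : Type} [Group H] [MulAction H P] [MulAction.IsPretransitive H P]
    {n : ℕ} {G : Subgroup (Equiv.Perm (Fin n))} (hG : IsCLWr ℓ H P G) :
    MulAction.IsPretransitive G (Fin n) := by
  obtain ⟨f, hf⟩ := hG
  refine ⟨fun i j => ?_⟩
  obtain ⟨h, hh⟩ := MulAction.exists_smul_eq H (f i).1 (f j).1
  let t : Equiv.Perm (P × ZMod ℓ) :=
    (MulAction.toPerm h).prodCongr (Equiv.addLeft ((f j).2 - (f i).2))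
  refine ⟨⟨f.trans (t.trans f.symm), (hf _).2 ⟨h, fun _ => (f j).2 - (f i).2, fun x => ?_⟩⟩, ?_⟩
  · simp [t]
    rfl
  · change f.symm (t (f i)) = j
    rw [Equiv.symm_apply_eq]
    exact Prod.ext (by simp [t, hh]) (by simp [t])

/-- the induction step -/
theorem good_step (r : InpL) (K : Type) [Field K] [NumberField K] (H P : Type) [Group H]
    [Finite H] [MulAction H P] [Finite P] [Nonempty P] [MulAction.IsPretransitive H P]
    [FaithfulSMul H P] (hL : Good K H P) (ℓ : ℕ) (hl : ℓ.Prime) (h5 : 3 ≤ ℓ)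
    (hz : HasZ ℓ K) {n : ℕ} (G : Subgroup (Equiv.Perm (Fin n))) (hG : IsCLWr ℓ H P G) :
    Good K G (Fin n) := by
  obtain ⟨hlow, hup⟩ := weakL r K H P hL ℓ hl hz G hG
  have hn := clwr_n hG
  have hpos : 0 < n := by
    rw [hn]
    exact Nat.mul_pos hl.pos Nat.card_pos
  have hne : Nonempty (Fin n) := ⟨⟨0, hpos⟩⟩
  have hl5 : (3 : ℝ) ≤ ℓ := by exact_mod_cast h5
  have hl1 : (0 : ℝ) < (ℓ : ℝ) - 1 := by linarith
  set d : ℝ := ((|discr K| : ℤ) : ℝ) ^ n with hd
  have hd0 : 0 < d := by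
    have : (0 : ℤ) < |discr K| := abs_pos.2 (discr_ne_zero K)
    have : (0 : ℝ) < ((|discr K| : ℤ) : ℝ) := by exact_mod_cast this
    positivity
  have hmem : ∀ L ∈ Gal K (AlgebraicClosure K) G (Fin n), ∀ Z : ℝ, dsc L ≤ Z →
      L ∈ Cnt K G (Z / d) := by
    intro L hLG Z hZ
    have hfd : FiniteDimensional K L := hLG.1
    have hnf : NumberField L := nf_of_fd L
    have hdeg : Module.finrank K L = n := by
      obtain ⟨-, e, -⟩ := hLG
      rw [← AlgHom.card K L (AlgebraicClosure K), ← Nat.card_eq_fintype_card, Nat.card_congr e,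
        Nat.card_fin]
    refine ⟨hdeg, ((gal_fin K G L).1 hLG).2, hnf, ?_⟩
    rw [dsc_eq L] at hZ
    rwa [← hd, div_mul_cancel₀ _ hd0.ne']
  refine ⟨fun s hs => ?_, ?_⟩
  · set ε : ℝ := (s - 1 / 2) / 2 with hε
    have hε0 : 0 < ε := by rw [hε]; linarith
    obtain ⟨c, hc0, hc⟩ := hup ε hε0
    have hb0 : 0 < 1 / ((ℓ : ℝ) - 1) + ε := by positivity
    have hbs : 1 / ((ℓ : ℝ) - 1) + ε < s := by
      have e2 : 1 / ((ℓ : ℝ) - 1) ≤ 1 / 2 := by
        apply one_div_le_one_div_of_le (by norm_num)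
        linarith
      linarith
    refine summable_of_count (fun M : Gal K (AlgebraicClosure K) G (Fin n) => dsc M.1)
      (fun M => one_le_dsc M.1) (c * (d ^ (1 / ((ℓ : ℝ) - 1) + ε))⁻¹) _ _ ?_ hb0.le hbs ?_
    · positivity
    · intro Z hZ
      obtain ⟨h1, h2⟩ := hc (Z / d) (by positivity)
      have h3 : Set.InjOn (Subtype.val : Gal K (AlgebraicClosure K) G (Fin n) →
          IntermediateField K (AlgebraicClosure K)) {M | dsc M.1 ≤ Z} :=
        Subtype.val_injective.injOn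
      have h4 : Set.MapsTo (Subtype.val : Gal K (AlgebraicClosure K) G (Fin n) →
          IntermediateField K (AlgebraicClosure K)) {M | dsc M.1 ≤ Z} (Cnt K G (Z / d)) :=
        fun M hM => hmem M.1 M.2 Z hM
      refine ⟨Set.Finite.of_injOn h4 h3 h1, ?_⟩
      have h5 := Set.ncard_le_ncard_of_injOn _ h4 h3 h1
      rw [Real.div_rpow hZ.le hd0.le] at h2
      calc (Set.ncard {M : Gal K (AlgebraicClosure K) G (Fin n) | dsc M.1 ≤ Z} : ℝ)
          ≤ (Set.ncard (Cnt K G (Z / d)) : ℝ) := by exact_mod_cast h5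
        _ ≤ c * (Z ^ (1 / ((ℓ : ℝ) - 1) + ε) / d ^ (1 / ((ℓ : ℝ) - 1) + ε)) := h2.le
        _ = _ := by ring
  · obtain ⟨c, hc0, X₀, hc⟩ := hlow
    have h1 := hc (max 1 X₀) (le_max_right _ _)
    have h2 : 0 < c * (max 1 X₀) ^ (1 / ((ℓ : ℝ) - 1)) := by
      have : (0 : ℝ) < max 1 X₀ := lt_of_lt_of_le one_pos (le_max_left _ _)
      positivity
    have h3 : 0 < Set.ncard (Cnt K G (max 1 X₀)) := by
      have := h2.trans_le h1
      exact_mod_cast this
    obtain ⟨L, hLC⟩ := Set.nonempty_of_ncard_ne_zero h3.ne'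
    refine ⟨L, (gal_fin K G L).2 ⟨?_, hLC.2.1⟩⟩
    exact FiniteDimensional.of_finrank_pos (by rw [hLC.1]; exact hpos)

/-- iterated wreath products with cyclic groups of prime order -/
inductive Tower (H P : Type) [Group H] [MulAction H P] :
    List ℕ → (n : ℕ) → Subgroup (Equiv.Perm (Fin n)) → Prop
  | one (ℓ n : ℕ) (G : Subgroup (Equiv.Perm (Fin n))) : IsCLWr ℓ H P G → Tower H P [ℓ] n G
  | step (ℓ : ℕ) (ls : List ℕ) (m n : ℕ) (G : Subgroup (Equiv.Perm (Fin m)))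
      (G' : Subgroup (Equiv.Perm (Fin n))) : Tower H P ls m G → IsCLWr ℓ G (Fin m) G' →
      Tower H P (ℓ :: ls) n G'

end Pool.Agent.U737.MN
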