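import Pool.Agent.TH444.ML.Tr
import Pool.Agent.U737.MN.Kum2

/-!
# Weak Malle for `C_ℓ ≀ H` : assembly
-/

set_option autoImplicit false
set_option linter.unusedSectionVars false

open NumberField Filter Topology

namespace Pool.Agent.U737.MN

open Pool.Agent.TH444.ML (dsc nrm nf_of_fd dsc_eq one_le_dsc)

/-- the inputs -/
structure InpL : Prop where
  degL : DegL
  backL : BackL
  forwL : ForwL
  notFullL : NotFullL
  notPow : NotPow
  discUp : DiscUp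
  kumUnif : KumUnif2
  many : Many
  injL : InjL
  splitSum : Pool.Agent.TH444.ML.SplitSum

section

variable (r : InpL) {K Ω : Type} [Field K] [NumberField K] [Field Ω] [Algebra K Ω]
  [IsAlgClosure K Ω] {H P : Type} [Group H] [Finite H] [MulAction H P] [Finite P] [Nonempty P]
  [MulAction.IsPretransitive H P] [FaithfulSMul H P] {ℓ : ℕ}

/-- the extensions of `K` with group `C_ℓ ≀ H` -/
def TL (K Ω : Type) [Field K] [Field Ω] [Algebra K Ω] (ℓ : ℕ) (H P : Type) [Group H]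
    [MulAction H P] (Z : ℝ) : Set (IntermediateField K Ω) :=
  {L | Module.finrank K L = ℓ * Nat.card P ∧ IsWrL K Ω ℓ H P L ∧ dsc L ≤ Z}

theorem finrank_gal {M : IntermediateField K Ω} (hM : M ∈ Gal K Ω H P) :
    Module.finrank K M = Nat.card P := by
  obtain ⟨hfd, e, -⟩ := hM
  have hac : IsAlgClosed Ω := IsAlgClosure.isAlgClosed K
  rw [← AlgHom.card K M Ω, ← Nat.card_eq_fintype_card]
  exact Nat.card_congr e

include r

/-- the upper bound -/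
theorem upperL (hl : ℓ.Prime) (hz : HasZ ℓ K)
    (hsum' : ∀ s : ℝ, 1 / 2 < s → Summable (fun M : Gal K Ω H P => (dsc M.1) ^ (-s)))
    (ε : ℝ) (hε : 0 < ε) :
    ∃ C : ℝ, 0 ≤ C ∧ ∀ Z : ℝ, 0 < Z → (TL K Ω ℓ H P Z).Finite ∧
      ((TL K Ω ℓ H P Z).ncard : ℝ) ≤ C * Z ^ (1 / ((ℓ : ℝ) - 1) + ε) := by
  classical
  have hl2 : (2 : ℝ) ≤ ℓ := by exact_mod_cast hl.two_le
  have hl1 : (0 : ℝ) < (ℓ : ℝ) - 1 := by linarith
  obtain ⟨η, hη⟩ : ∃ η : ℝ, η = 1 / (2 * ((ℓ : ℝ) - 1)) := ⟨_, rfl⟩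
  have hη0 : 0 < η := by rw [hη]; positivity
  obtain ⟨C, hC0, hC⟩ := r.kumUnif ℓ (Module.finrank ℚ K * Nat.card P) η ε hl hη0 hε
  set b : ℝ := 1 / ((ℓ : ℝ) - 1) + ε with hb
  have hb0 : 0 < b := by positivity
  obtain ⟨s, hs⟩ : ∃ s : ℝ, s = 1 / 2 + η := ⟨_, rfl⟩
  have hsum := hsum' s (by linarith)
  have hlb : s + (1 / 2 + η) ≤ (ℓ : ℝ) * b := by
    have h1 : (ℓ : ℝ) * (1 / ((ℓ : ℝ) - 1)) ≤ ℓ * b := by
      apply mul_le_mul_of_nonneg_left _ (by linarith)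
      rw [hb]
      linarith
    have h2 : (ℓ : ℝ) * (1 / ((ℓ : ℝ) - 1)) = 1 + 2 * η := by
      rw [hη]
      field_simp
      ring
    linarith
  -- the bound for one `M`
  have hM : ∀ M : Gal K Ω H P, ∀ Z : ℝ, 0 < Z → (KS ℓ M.1 (Z / dsc M.1 ^ ℓ)).Finite ∧
      ((KS ℓ M.1 (Z / dsc M.1 ^ ℓ)).ncard : ℝ) ≤ C * Z ^ b * (dsc M.1) ^ (-s) := by
    intro M Z hZ
    have hfd : FiniteDimensional K M.1 := M.2.1
    have hd1 : 1 ≤ dsc M.1 := one_le_dsc M.1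
    have hd0 : 0 < dsc M.1 := by linarith
    have hdeg : Module.finrank ℚ M.1 = Module.finrank ℚ K * Nat.card P := by
      rw [← finrank_gal M.2, Module.finrank_mul_finrank ℚ K M.1]
    obtain ⟨h1, h2⟩ := hC K Ω M.1 hz hdeg (Z / dsc M.1 ^ ℓ) (by positivity)
    refine ⟨h1, h2.trans ?_⟩
    have h3 : (Z / dsc M.1 ^ ℓ) ^ b = Z ^ b * dsc M.1 ^ (-((ℓ : ℝ) * b)) := by
      rw [Real.div_rpow hZ.le (by positivity), ← Real.rpow_natCast, ← Real.rpow_mul hd0.le,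
        div_eq_mul_inv, ← Real.rpow_neg hd0.le]
    rw [h3]
    have h4 : dsc M.1 ^ (1 / 2 + η) * dsc M.1 ^ (-((ℓ : ℝ) * b)) ≤ dsc M.1 ^ (-s) := by
      rw [← Real.rpow_add hd0]
      exact Real.rpow_le_rpow_of_exponent_le hd1 (by linarith)
    calc C * dsc M.1 ^ (1 / 2 + η) * (Z ^ b * dsc M.1 ^ (-((ℓ : ℝ) * b)))
        = C * Z ^ b * (dsc M.1 ^ (1 / 2 + η) * dsc M.1 ^ (-((ℓ : ℝ) * b))) := by ring
      _ ≤ _ := mul_le_mul_of_nonneg_left h4 (by positivity)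
  refine ⟨C * ∑' M : Gal K Ω H P, (dsc M.1) ^ (-s), ?_, ?_⟩
  · exact mul_nonneg hC0 (tsum_nonneg fun M => Real.rpow_nonneg
      (by linarith [one_le_dsc M.1]) _)
  intro Z hZ
  have hs1 : Summable (fun M : Gal K Ω H P => ((KS ℓ M.1 (Z / dsc M.1 ^ ℓ)).ncard : ℝ)) := by
    refine Summable.of_nonneg_of_le (fun M => by positivity) (fun M => (hM M Z hZ).2) ?_
    exact hsum.mul_left _
  have hfs : {M : Gal K Ω H P | (KS ℓ M.1 (Z / dsc M.1 ^ ℓ)).Nonempty}.Finite := by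
    have h := hs1.tendsto_cofinite_zero.eventually (gt_mem_nhds (zero_lt_one (α := ℝ)))
    rw [Filter.eventually_cofinite] at h
    refine h.subset ?_
    intro M hMn
    simp only [Set.mem_ofPred_eq, not_lt]
    have : 0 < Set.ncard (KS ℓ M.1 (Z / dsc M.1 ^ ℓ)) := (Set.ncard_pos (hM M Z hZ).1).2 hMn
    exact_mod_cast this
  have hsub : TL K Ω ℓ H P Z ⊆ ⋃ M ∈ hfs.toFinset, KS ℓ M.1 (Z / dsc M.1 ^ ℓ) := by
    rintro L ⟨h1, h2, h3⟩
    obtain ⟨M, s, hMG, hk⟩ := r.forwL ℓ K Ω H P L hl hz h1 h2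
    have hd1 : 1 ≤ dsc M := one_le_dsc M
    have hmem : L ∈ KS ℓ M (Z / dsc M ^ ℓ) := by
      refine ⟨⟨s, hk⟩, ?_⟩
      rw [div_mul_cancel₀ _ (by positivity)]
      exact h3
    simp only [Set.mem_iUnion, Set.Finite.mem_toFinset, Set.mem_ofPred_eq, exists_prop]
    exact ⟨⟨M, hMG⟩, ⟨L, hmem⟩, hmem⟩
  have hUf : (⋃ M ∈ hfs.toFinset, KS ℓ M.1 (Z / dsc M.1 ^ ℓ)).Finite :=
    Set.Finite.biUnion hfs.toFinset.finite_toSet (fun M _ => (hM M Z hZ).1)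
  refine ⟨hUf.subset hsub, ?_⟩
  have h1 : (TL K Ω ℓ H P Z).ncard ≤ ∑ M ∈ hfs.toFinset, (KS ℓ M.1 (Z / dsc M.1 ^ ℓ)).ncard := by
    refine (Set.ncard_le_ncard hsub hUf).trans ?_
    have hTb : hUf.toFinset =
        hfs.toFinset.biUnion (fun M => ((hM M Z hZ).1).toFinset) := by
      ext L
      rw [Set.Finite.mem_toFinset]
      simp only [Set.mem_iUnion, Finset.mem_biUnion, Set.Finite.mem_toFinset, exists_prop]
    rw [Set.ncard_eq_toFinset_card _ hUf, hTb]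
    refine Finset.card_biUnion_le.trans (Finset.sum_le_sum fun M _ => ?_)
    exact (Set.ncard_eq_toFinset_card _ (hM M Z hZ).1).ge
  calc ((TL K Ω ℓ H P Z).ncard : ℝ)
      ≤ ∑ M ∈ hfs.toFinset, ((KS ℓ M.1 (Z / dsc M.1 ^ ℓ)).ncard : ℝ) := by exact_mod_cast h1
    _ ≤ ∑ M ∈ hfs.toFinset, C * Z ^ b * (dsc M.1) ^ (-s) :=
        Finset.sum_le_sum fun M _ => (hM M Z hZ).2
    _ = C * Z ^ b * ∑ M ∈ hfs.toFinset, (dsc M.1) ^ (-s) := by rw [Finset.mul_sum]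
    _ ≤ C * Z ^ b * ∑' M : Gal K Ω H P, (dsc M.1) ^ (-s) := by
        apply mul_le_mul_of_nonneg_left _ (by positivity)
        exact hsum.sum_le_tsum _ (fun M _ => Real.rpow_nonneg (by linarith [one_le_dsc M.1]) _)
    _ = _ := by ring

end

end Pool.Agent.U737.MN
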