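import Pool.Agent.U737.MN.WeakL

/-!
# Weak Malle for `C_ℓ ≀ H` : the lower bound
-/

set_option autoImplicit false
set_option linter.unusedSectionVars false

open NumberField Filter Topology

namespace Pool.Agent.U737.MN

open Pool.Agent.TH444.ML (dsc nrm nf_of_fd dsc_eq one_le_dsc)

section

variable (r : InpL) {K Ω : Type} [Field K] [NumberField K] [Field Ω] [Algebra K Ω]
  [IsAlgClosure K Ω] {H P : Type} [Group H] [Finite H] [MulAction H P] [Finite P] [Nonempty P]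
  [MulAction.IsPretransitive H P] [FaithfulSMul H P] {ℓ : ℕ}

include r in
/-- a prime of `K` such that elements with the pattern give full normal closure -/
theorem exists_prime (M : IntermediateField K Ω) [FiniteDimensional K M] [NumberField M] :
    ∃ p : Ideal (𝓞 K), p.IsPrime ∧ p ≠ ⊥ ∧ ∀ (ℓ : ℕ) (Pr : Ideal (𝓞 M)) (α : 𝓞 M)
      (S : Finset (M →ₐ[K] IntermediateField.normalClosure K M Ω))
      (a : (M →ₐ[K] IntermediateField.normalClosure K M Ω) → ℕ), ℓ.Prime → Pat K M p Pr α →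
      S.Nonempty → (∀ φ ∈ S, ¬ ℓ ∣ a φ) →
      ¬ ∃ y : IntermediateField.normalClosure K M Ω, y ^ ℓ = ∏ φ ∈ S, (φ (α : M)) ^ (a φ) := by
  have hcl : IsAlgClosed Ω := IsAlgClosure.isAlgClosed K
  have hchar : CharZero Ω := charZero_of_injective_algebraMap (algebraMap K Ω).injective
  have hfd : FiniteDimensional K (IntermediateField.normalClosure K M Ω) := inferInstance
  have hNN : NumberField (IntermediateField.normalClosure K M Ω) :=
    NumberField.of_module_finite K _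
  have halg : Algebra.IsAlgebraic K Ω := IsAlgClosure.isAlgebraic
  have hnorm : Normal K Ω := inferInstance
  have hG : Normal K (IntermediateField.normalClosure K M Ω) := inferInstance
  have hGal : IsGalois K (IntermediateField.normalClosure K M Ω) := ⟨⟩
  have hMN : M ≤ IntermediateField.normalClosure K M Ω := M.le_normalClosure
  let _ : Algebra M (IntermediateField.normalClosure K M Ω) :=
    (IntermediateField.inclusion hMN).toAlgebra
  have htower : IsScalarTower K M (IntermediateField.normalClosure K M Ω) :=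
    IsScalarTower.of_algebraMap_eq fun x => rfl
  have hex : Nonempty {p : Ideal (𝓞 K) // p.IsPrime ∧ p ≠ ⊥ ∧
      Set.ncard (p.primesOver (𝓞 (IntermediateField.normalClosure K M Ω))) =
        Module.finrank K (IntermediateField.normalClosure K M Ω)} := by
    by_contra hem
    rw [not_nonempty_iff] at hem
    exact r.splitSum K (IntermediateField.normalClosure K M Ω) summable_empty
  obtain ⟨⟨p, hp1, hp2, hp3⟩⟩ := hex
  refine ⟨p, hp1, hp2, ?_⟩
  intro ℓ Pr α S a hl hpat hS ha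
  exact r.notPow ℓ K M (IntermediateField.normalClosure K M Ω) p Pr α S a hl ⟨hp1, hp2, hp3⟩
    hpat hS ha

include r in
/-- the lower bound -/
theorem lowerL (hl : ℓ.Prime) (hz : HasZ ℓ K) (hne : (Gal K Ω H P).Nonempty) :
    ∃ c : ℝ, 0 < c ∧ ∃ Z₀ : ℝ, ∀ Z : ℝ, Z₀ ≤ Z → (TL K Ω ℓ H P Z).Finite →
      c * Z ^ (1 / ((ℓ : ℝ) - 1)) ≤ ((TL K Ω ℓ H P Z).ncard : ℝ) := by
  classical
  obtain ⟨M, hM⟩ := hne
  have hfd : FiniteDimensional K M := hM.1
  have hNM : NumberField M := nf_of_fd M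
  have hcl : IsAlgClosed Ω := IsAlgClosure.isAlgClosed K
  obtain ⟨p, hp1, hp2, hfull⟩ := exists_prime r M
  have hpM : p.IsMaximal := hp1.isMaximal hp2
  have hTf : (p.primesOver (𝓞 M)).Finite := IsDedekindDomain.primesOver_finite p (𝓞 M)
  obtain ⟨⟨Pr, hPr⟩⟩ := p.nonempty_primesOver (S := 𝓞 M)
  obtain ⟨c, hc0, Y₀, hY⟩ := r.many M hTf.toFinset Pr (by
    intro Q hQ
    rw [Set.Finite.mem_toFinset] at hQ
    exact ⟨hQ.1, Ideal.ne_bot_of_mem_primesOver hp2 hQ⟩) (by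
    rw [Set.Finite.mem_toFinset]; exact hPr)
  have hPrp : Pr.IsPrime := hPr.1
  have hl2 : (2 : ℝ) ≤ ℓ := by exact_mod_cast hl.two_le
  have hl1 : (0 : ℝ) < (ℓ : ℝ) - 1 := by linarith
  have hd1 : 1 ≤ dsc M := one_le_dsc M
  have hd0 : 0 < dsc M := by linarith
  set C₁ : ℝ := dsc M ^ ℓ * (ℓ : ℝ) ^ (ℓ * Module.finrank ℚ M) with hC₁
  have hC0 : 0 < C₁ := by positivity
  set b : ℝ := 1 / ((ℓ : ℝ) - 1) with hb
  have hb0 : 0 < b := by positivity
  -- everything for one `α`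
  have hroot : ∀ α : 𝓞 M, ∃ s : Ω, s ^ ℓ = ((α : M) : Ω) := fun α =>
    IsAlgClosed.exists_pow_nat_eq _ hl.pos
  choose s hs using hroot
  have hsM : ∀ α : 𝓞 M, α ∈ Pr → α ∉ Pr ^ 2 → s α ∉ M := by
    intro α h1 h2 h3
    have h4 : (⟨s α, h3⟩ : M) ^ ℓ = (α : M) := by
      apply Subtype.ext
      exact hs α
    have hint : IsIntegral ℤ (⟨s α, h3⟩ : M) := by
      have h5 : IsIntegral ℤ ((⟨s α, h3⟩ : M) ^ ℓ) := by
        rw [h4]; exact α.2
      exact h5.of_pow hl.pos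
    let β : 𝓞 M := ⟨⟨s α, h3⟩, hint⟩
    have h6 : β ^ ℓ = α := by
      apply RingOfIntegers.ext
      exact h4
    have h7 : β ∈ Pr := by
      rw [← h6] at h1
      exact hPrp.mem_of_pow_mem ℓ h1
    apply h2
    rw [← h6]
    exact Ideal.pow_le_pow_right hl.two_le (Ideal.pow_mem_pow h7 ℓ)
  have hk : ∀ α : 𝓞 M, α ∈ Pr → α ∉ Pr ^ 2 →
      Kum ℓ M (M ⊔ IntermediateField.adjoin K {s α}) (s α) := by
    intro α h1 h2
    refine ⟨?_, hsM α h1 h2, rfl⟩
    rw [hs α]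
    exact (α : M).2
  refine ⟨c * C₁ ^ (-b), by positivity, max 1 (C₁ * (max 1 Y₀) ^ ((ℓ : ℝ) - 1)), ?_⟩
  intro Z hZ hfin
  have hZ1 : 1 ≤ Z := (le_max_left _ _).trans hZ
  have hZ0 : 0 < Z := by linarith
  have hZ2 : C₁ * (max 1 Y₀) ^ ((ℓ : ℝ) - 1) ≤ Z := (le_max_right _ _).trans hZ
  set Y : ℝ := (Z / C₁) ^ b with hYdef
  have hm1 : (0 : ℝ) < max 1 Y₀ := lt_of_lt_of_le one_pos (le_max_left _ _)
  have hYY : Y₀ ≤ Y := by
    have h1 : (max 1 Y₀) ^ ((ℓ : ℝ) - 1) ≤ Z / C₁ := by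
      rw [le_div_iff₀ hC0]
      linarith
    have h2 : ((max 1 Y₀) ^ ((ℓ : ℝ) - 1)) ^ b = max 1 Y₀ := by
      rw [← Real.rpow_mul hm1.le, hb, mul_one_div_cancel hl1.ne', Real.rpow_one]
    calc Y₀ ≤ max 1 Y₀ := le_max_right _ _
      _ = ((max 1 Y₀) ^ ((ℓ : ℝ) - 1)) ^ b := h2.symm
      _ ≤ Y := Real.rpow_le_rpow (by positivity) h1 hb0.le
  have hYpow : C₁ * Y ^ (ℓ - 1) = Z := by
    have h1 : Y ^ (ℓ - 1) = Z / C₁ := by
      rw [hYdef, ← Real.rpow_natCast, ← Real.rpow_mul (by positivity)]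
      have h2 : b * ((ℓ - 1 : ℕ) : ℝ) = 1 := by
        rw [hb, Nat.cast_sub hl.one_le, Nat.cast_one]
        field_simp
      rw [h2, Real.rpow_one]
    rw [h1]
    field_simp
  obtain ⟨𝔣, A, h𝔣, hA1, hA2, hA3⟩ := hY Y hYY
  have hcount : A.card ≤ (TL K Ω ℓ H P Z).ncard := by
    rw [← Set.ncard_coe_finset A]
    refine Set.ncard_le_ncard_of_injOn
      (fun α => M ⊔ IntermediateField.adjoin K {s α}) ?_ ?_ hfin
    · intro α hα
      obtain ⟨g1, g2, g3, g4, g5, g6⟩ := hA2 α hα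
      have hkα := hk α g3 g4
      have hα0 : (α : M) ≠ 0 := fun h => g1 (RingOfIntegers.coe_eq_zero_iff.mp h)
      obtain ⟨hd, hdeg⟩ := r.degL ℓ K Ω M _ (s α) hl hz hkα
      have hnc : nc (M ⊔ IntermediateField.adjoin K {s α}) =
          ℓ ^ Module.finrank K M * nc M := by
        by_contra hnc
        obtain ⟨S, a, h1, h2, h3⟩ := r.notFullL ℓ K Ω M _ (α : M) (s α) hl hz hα0 (hs α) hkα hnc
        refine hfull ℓ Pr α S a hl ⟨hPr, g3, g4, ?_⟩ h1 h2 h3
        intro P' hP' hne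
        exact g5 P' (by rw [Set.Finite.mem_toFinset]; exact hP') hne
      refine ⟨?_, r.backL ℓ K Ω H P M _ (s α) hl hz hM hkα hnc, ?_⟩
      · rw [hdeg, finrank_gal hM]
      · refine (r.discUp ℓ K Ω M _ α (s α) hl hz g1 (hs α) hkα).trans ?_
        rw [← hYpow, hC₁, mul_assoc]
        have hn0 : 0 ≤ nrm α := by
          unfold nrm
          positivity
        gcongr
    · intro α hα β hβ he
      obtain ⟨g1, g2, g3, g4, g5, 𝔟, g6, g7, g8⟩ := hA2 α hα
      obtain ⟨g1', g2', g3', g4', g5', 𝔟', g6', g7', g8'⟩ := hA2 β hβ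
      apply hA3 α hα β hβ
      have he' : M ⊔ IntermediateField.adjoin K {s α} = M ⊔ IntermediateField.adjoin K {s β} := he
      have hkβ := hk β g3' g4'
      rw [← he'] at hkβ
      exact r.injL ℓ K Ω M _ α β (s α) (s β) 𝔣 𝔟 𝔟' hl hz g1 g1' (hs α) (hs β) (hk α g3 g4)
        hkβ h𝔣 g6 g6' g7 g7' g8 g8'
  have hY2 : Y = C₁ ^ (-b) * Z ^ b := by
    rw [hYdef, Real.div_rpow hZ0.le hC0.le, Real.rpow_neg hC0.le]
    field_simp
  calc c * C₁ ^ (-b) * Z ^ b = c * Y := by rw [hY2]; ring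
    _ ≤ A.card := hA1
    _ ≤ _ := by exact_mod_cast hcount

end

end Pool.Agent.U737.MN
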